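import Mathlib

/-!
# Chains with coefficients in `ZMod 2` on a finite ground set

Chains are functions on all finite subsets of the ground type `E`. `chains X m` consists of the
chains supported on the members of `X` with `m` elements, `bd` is the (reduced) boundary operator,
and `Exact X m` says that every cycle in `chains X m` is the boundary of a chain in
`chains X (m + 1)`.
-/

set_option autoImplicit false

open Finset

namespace Pool.Agent.H82.Top

/-- chains -/
abbrev Ch (E : Type*) : Type _ := Finset E → ZMod 2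

variable {E : Type*}

theorem add_self (a : ZMod 2) : a + a = 0 := CharTwo.add_self_eq_zero a

theorem ch_add_self (z : Ch E) : z + z = 0 := by
  funext σ; exact add_self _

theorem ch_neg (z : Ch E) : -z = z := by
  funext σ; exact CharTwo.neg_eq (z σ)

theorem eq_of_add_eq_zero' {x y : Ch E} (h : x + y = 0) : x = y := by
  have := eq_neg_of_add_eq_zero_left h
  rwa [ch_neg] at this

/-- chains supported on the members of `X` of size `m` -/
def chains (X : Set (Finset E)) (m : ℕ) : Submodule (ZMod 2) (Ch E) where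
  carrier := {z | ∀ σ, z σ ≠ 0 → σ ∈ X ∧ σ.card = m}
  add_mem' := by
    intro a b ha hb σ h
    by_cases h1 : a σ = 0
    · exact hb σ (by intro h2; apply h; simp [h1, h2])
    · exact ha σ h1
  zero_mem' := by intro σ h; exact absurd rfl h
  smul_mem' := by
    intro c a ha σ h
    exact ha σ (by intro h2; apply h; simp [h2])

theorem mem_chains {X : Set (Finset E)} {m : ℕ} {z : Ch E} :
    z ∈ chains X m ↔ ∀ σ, z σ ≠ 0 → σ ∈ X ∧ σ.card = m := Iff.rfl

theorem eq_zero_of_card {X : Set (Finset E)} {m : ℕ} {z : Ch E} (hz : z ∈ chains X m)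
    {σ : Finset E} (h : σ.card ≠ m) : z σ = 0 := by
  by_contra h1
  exact h (hz σ h1).2

theorem eq_zero_of_notMem {X : Set (Finset E)} {m : ℕ} {z : Ch E} (hz : z ∈ chains X m)
    {σ : Finset E} (h : σ ∉ X) : z σ = 0 := by
  by_contra h1
  exact h (hz σ h1).1

theorem chains_mono {X Y : Set (Finset E)} (h : X ⊆ Y) (m : ℕ) : chains X m ≤ chains Y m :=
  fun _ hz σ hσ => ⟨h (hz σ hσ).1, (hz σ hσ).2⟩

/-- down-closed families -/
def IsDown (X : Set (Finset E)) : Prop := ∀ σ ∈ X, ∀ τ ⊆ σ, τ ∈ X

variable [Fintype E] [DecidableEq E]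

/-- the boundary operator -/
def bd : Ch E →ₗ[ZMod 2] Ch E where
  toFun z := fun τ => ∑ e ∈ τᶜ, z (insert e τ)
  map_add' := by intro x y; funext τ; simp [Finset.sum_add_distrib]
  map_smul' := by intro a x; funext τ; simp [Finset.mul_sum]

theorem bd_apply (z : Ch E) (τ : Finset E) : bd z τ = ∑ e ∈ τᶜ, z (insert e τ) := rfl

theorem bd_bd (z : Ch E) : bd (bd z) = 0 := by
  funext τ
  simp only [bd_apply, Pi.zero_apply]
  rw [Finset.sum_sigma']
  refine Finset.sum_involution (fun p _ => ⟨p.2, p.1⟩) ?_ ?_ ?_ ?_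
  · rintro ⟨e, e'⟩ h
    simp only
    rw [Finset.insert_comm]
    exact add_self _
  · rintro ⟨e, e'⟩ h _ heq
    simp only [mem_sigma, mem_compl, mem_insert, not_or] at h
    simp only [Sigma.mk.injEq, heq_eq_eq] at heq
    exact h.2.1 heq.1
  · rintro ⟨e, e'⟩ h
    simp only [mem_sigma, mem_compl, mem_insert, not_or] at h ⊢
    exact ⟨h.2.2, fun h1 => h.2.1 h1.symm, h.1⟩
  · rintro ⟨e, e'⟩ h
    rfl

theorem bd_mem {X : Set (Finset E)} (hX : IsDown X) {m : ℕ} {z : Ch E}
    (hz : z ∈ chains X (m + 1)) : bd z ∈ chains X m := by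
  intro τ h
  rw [bd_apply] at h
  obtain ⟨e, he, h1⟩ := Finset.exists_ne_zero_of_sum_ne_zero h
  rw [mem_compl] at he
  obtain ⟨h2, h3⟩ := hz _ h1
  refine ⟨hX _ h2 _ (subset_insert _ _), ?_⟩
  rw [card_insert_of_notMem he] at h3
  omega

theorem bd_zero_size {X : Set (Finset E)} {z : Ch E} (hz : z ∈ chains X 0) : bd z = 0 := by
  funext τ
  rw [bd_apply]
  refine Finset.sum_eq_zero fun e _ => eq_zero_of_card hz ?_
  exact (Finset.card_pos.2 ⟨e, mem_insert_self _ _⟩).ne'

/-- exactness at size `m` -/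
def Exact (X : Set (Finset E)) (m : ℕ) : Prop :=
  ∀ z ∈ chains X m, bd z = 0 → ∃ w ∈ chains X (m + 1), bd w = z

/-! ### Cones and links -/

/-- the cone operator with apex `v` -/
def cone (v : E) : Ch E →ₗ[ZMod 2] Ch E where
  toFun z := fun σ => if v ∈ σ then z (σ.erase v) else 0
  map_add' := by intro x y; funext τ; by_cases h : v ∈ τ <;> simp [h]
  map_smul' := by intro a x; funext τ; by_cases h : v ∈ τ <;> simp [h]

theorem cone_apply (v : E) (z : Ch E) (σ : Finset E) :
    cone v z σ = if v ∈ σ then z (σ.erase v) else 0 := rfl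

/-- the link operator at `v` -/
def lk (v : E) : Ch E →ₗ[ZMod 2] Ch E where
  toFun z := fun σ => if v ∈ σ then 0 else z (insert v σ)
  map_add' := by intro x y; funext τ; by_cases h : v ∈ τ <;> simp [h]
  map_smul' := by intro a x; funext τ; by_cases h : v ∈ τ <;> simp [h]

theorem lk_apply (v : E) (z : Ch E) (σ : Finset E) :
    lk v z σ = if v ∈ σ then 0 else z (insert v σ) := rfl

theorem bd_cone (v : E) (z : Ch E) : bd (cone v z) = z + cone v (bd z) := by
  funext τ
  rw [Pi.add_apply, bd_apply, cone_apply]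
  by_cases h : v ∈ τ
  · rw [if_pos h, bd_apply]
    have h1 : (τ.erase v)ᶜ = insert v τᶜ := by
      ext e
      simp only [mem_compl, mem_erase, mem_insert]
      tauto
    rw [h1, sum_insert (by simpa using h), insert_erase h, ← add_assoc, add_self, zero_add]
    refine Finset.sum_congr rfl fun e he => ?_
    have hne : e ≠ v := by
      rintro rfl
      exact (mem_compl.1 he) h
    rw [cone_apply, if_pos (mem_insert_of_mem h), erase_insert_of_ne hne]
  · rw [if_neg h, add_zero]
    rw [Finset.sum_eq_single_of_mem v (by simpa using h)]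
    · rw [cone_apply, if_pos (mem_insert_self _ _), erase_insert h]
    · intro e he hne
      rw [cone_apply, if_neg]
      rw [mem_insert, not_or]
      exact ⟨fun h1 => hne h1.symm, h⟩

theorem bd_lk (v : E) (z : Ch E) : bd (lk v z) = lk v (bd z) := by
  funext τ
  rw [bd_apply, lk_apply]
  by_cases h : v ∈ τ
  · rw [if_pos h]
    refine Finset.sum_eq_zero fun e _ => ?_
    rw [lk_apply, if_pos (mem_insert_of_mem h)]
  · rw [if_neg h, bd_apply]
    have h1 : τᶜ = insert v (insert v τ)ᶜ := by
      ext e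
      simp only [mem_compl, mem_insert]
      by_cases h2 : e = v
      · subst h2; simp [h]
      · simp [h2]
    rw [h1, sum_insert (by simp), lk_apply, if_pos (mem_insert_self _ _), zero_add]
    refine Finset.sum_congr rfl fun e he => ?_
    rw [mem_compl, mem_insert, not_or] at he
    rw [lk_apply, if_neg, insert_comm]
    rw [mem_insert, not_or]
    exact ⟨fun h3 => he.1 h3.symm, h⟩

theorem cone_lk (v : E) (z : Ch E) (σ : Finset E) :
    cone v (lk v z) σ = if v ∈ σ then z σ else 0 := by
  rw [cone_apply]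
  by_cases h : v ∈ σ
  · rw [if_pos h, if_pos h, lk_apply, if_neg (notMem_erase _ _), insert_erase h]
  · rw [if_neg h, if_neg h]

theorem cone_mem {X Y : Set (Finset E)} {v : E} (h : ∀ ρ ∈ X, v ∉ ρ → insert v ρ ∈ Y) {m : ℕ}
    {z : Ch E} (hz : z ∈ chains X m) : cone v z ∈ chains Y (m + 1) := by
  intro σ hσ
  rw [cone_apply] at hσ
  by_cases hv : v ∈ σ
  · rw [if_pos hv] at hσ
    obtain ⟨h1, h2⟩ := hz _ hσ
    have h3 := h _ h1 (notMem_erase _ _)
    rw [insert_erase hv] at h3
    refine ⟨h3, ?_⟩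
    rw [card_erase_of_mem hv] at h2
    have := Finset.card_pos.2 ⟨v, hv⟩
    omega
  · rw [if_neg hv] at hσ
    exact absurd rfl hσ

theorem exact_of_cone {X : Set (Finset E)} {v : E} (h : ∀ ρ ∈ X, insert v ρ ∈ X) (m : ℕ) :
    Exact X m := by
  intro z hz hb
  refine ⟨cone v z, cone_mem (fun ρ hρ _ => h ρ hρ) hz, ?_⟩
  rw [bd_cone, hb, map_zero, add_zero]

/-- exactness at size `0` -/
theorem exact_zero {X : Set (Finset E)} {v : E} (hv : {v} ∈ X) : Exact X 0 := by
  intro z hz _
  refine ⟨cone v z, ?_, ?_⟩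
  · intro σ hσ
    rw [cone_apply] at hσ
    by_cases hvσ : v ∈ σ
    · rw [if_pos hvσ] at hσ
      have h2 := (hz _ hσ).2
      rw [card_eq_zero] at h2
      have h3 : σ = {v} := by
        rw [← insert_erase hvσ, h2]
        rfl
      rw [h3]
      exact ⟨hv, rfl⟩
    · rw [if_neg hvσ] at hσ
      exact absurd rfl hσ
  · rw [bd_cone, bd_zero_size hz, map_zero, add_zero]

/-- truncation -/
def trunc (X : Set (Finset E)) (t : ℕ) : Set (Finset E) := {σ | σ ∈ X ∧ σ.card ≤ t}

omit [Fintype E] [DecidableEq E] in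
theorem trunc_subset (X : Set (Finset E)) (t : ℕ) : trunc X t ⊆ X := fun _ h => h.1

theorem exact_trunc {X : Set (Finset E)} {m t : ℕ} (h : Exact X m) (ht : m < t) :
    Exact (trunc X t) m := by
  intro z hz hb
  obtain ⟨w, hw, h1⟩ := h z (chains_mono (trunc_subset X t) m hz) hb
  refine ⟨w, fun σ hσ => ?_, h1⟩
  obtain ⟨h2, h3⟩ := hw σ hσ
  exact ⟨⟨h2, by omega⟩, h3⟩

end Pool.Agent.H82.Top
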