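import Pool.Agent.H82.Top.Cor

/-!
# Chordal graphs

A graph is chordal if every cycle of length at least four has a chord. We prove Dirac's theorem:
every nonempty set `W` of vertices of a finite chordal graph `G` contains a vertex that is
simplicial in the subgraph induced on `W`.
-/

set_option autoImplicit false

open Finset

namespace Pool.Agent.H82.Top

variable {V : Type*}

/-- Every cycle of length at least four has a chord: an edge of `G` between two vertices of the
cycle which is not an edge of the cycle. -/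
def IsChordal (G : SimpleGraph V) : Prop :=
  ∀ (v : V) (w : G.Walk v v), w.IsCycle → 4 ≤ w.length →
    ∃ a ∈ w.support, ∃ b ∈ w.support, G.Adj a b ∧ s(a, b) ∉ w.edges

theorem mem_concat' {α : Type*} {l : List α} {a x : α} : x ∈ l.concat a ↔ x ∈ l ∨ x = a := by
  rw [List.concat_eq_append, List.mem_append, List.mem_singleton]

theorem exists_shorter [DecidableEq V] {G : SimpleGraph V} {s s' : V} (p : G.Walk s s') {a b : V}
    (ha : a ∈ p.support) (hb : b ∈ p.support) (hab : G.Adj a b) (he : s(a, b) ∉ p.edges) :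
    ∃ q : G.Walk s s', q.length < p.length ∧ ∀ x ∈ q.support, x ∈ p.support := by
  classical
  have hlen : ∀ {x y : V} (r : G.Walk x y), G.Adj x y → s(x, y) ∉ r.edges → 2 ≤ r.length := by
    intro x y r hxy hr
    rcases r with _ | ⟨h1, r1⟩
    · exact absurd rfl hxy.ne
    · rcases r1 with _ | ⟨h2, r2⟩
      · simp at hr
      · simp
  by_cases hb' : b ∈ (p.dropUntil a ha).support
  · set r := p.dropUntil a ha with hr
    have h1 : (p.takeUntil a ha).length + r.length = p.length := by
      rw [← SimpleGraph.Walk.length_append, hr, SimpleGraph.Walk.take_spec]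
    have h2 : (r.takeUntil b hb').length + (r.dropUntil b hb').length = r.length := by
      rw [← SimpleGraph.Walk.length_append, SimpleGraph.Walk.take_spec]
    have h3 : 2 ≤ (r.takeUntil b hb').length := by
      refine hlen _ hab fun h => he ?_
      exact p.edges_dropUntil_subset_edges ha (r.edges_takeUntil_subset_edges hb' h)
    refine ⟨(p.takeUntil a ha).append (SimpleGraph.Walk.cons hab (r.dropUntil b hb')), ?_, ?_⟩
    · rw [SimpleGraph.Walk.length_append, SimpleGraph.Walk.length_cons]
      omega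
    · intro x hx
      rw [SimpleGraph.Walk.mem_support_append_iff, SimpleGraph.Walk.support_cons,
        List.mem_cons] at hx
      rcases hx with hx | rfl | hx
      · exact p.support_takeUntil_subset_support ha hx
      · exact ha
      · exact p.support_dropUntil_subset_support ha (r.support_dropUntil_subset_support hb' hx)
  · have hb'' : b ∈ (p.takeUntil a ha).support := by
      have h1 : b ∈ ((p.takeUntil a ha).append (p.dropUntil a ha)).support := by
        rw [SimpleGraph.Walk.take_spec]; exact hb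
      rw [SimpleGraph.Walk.mem_support_append_iff] at h1
      exact h1.resolve_right hb'
    set r := p.takeUntil a ha with hr
    have h1 : r.length + (p.dropUntil a ha).length = p.length := by
      rw [← SimpleGraph.Walk.length_append, hr, SimpleGraph.Walk.take_spec]
    have h2 : (r.takeUntil b hb'').length + (r.dropUntil b hb'').length = r.length := by
      rw [← SimpleGraph.Walk.length_append, SimpleGraph.Walk.take_spec]
    have h3 : 2 ≤ (r.dropUntil b hb'').length := by
      refine hlen _ hab.symm fun h => he ?_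
      rw [Sym2.eq_swap]
      exact p.edges_takeUntil_subset_edges ha (r.edges_dropUntil_subset_edges hb'' h)
    refine ⟨(r.takeUntil b hb'').append (SimpleGraph.Walk.cons hab.symm (p.dropUntil a ha)),
      ?_, ?_⟩
    · rw [SimpleGraph.Walk.length_append, SimpleGraph.Walk.length_cons]
      omega
    · intro x hx
      rw [SimpleGraph.Walk.mem_support_append_iff, SimpleGraph.Walk.support_cons,
        List.mem_cons] at hx
      rcases hx with hx | rfl | hx
      · exact p.support_takeUntil_subset_support ha (r.support_takeUntil_subset_support hb'' hx)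
      · exact hb
      · exact p.support_dropUntil_subset_support ha hx

/-- Two common neighbours of `v` that are joined by a walk whose inner vertices are not adjacent
to `v` and different from `v` are adjacent. -/
theorem adj_of_walk [DecidableEq V] {G : SimpleGraph V} (hG : IsChordal G) {v s s' : V}
    (hs : G.Adj v s) (hs' : G.Adj v s') (hne : s ≠ s') (p : G.Walk s s')
    (hp : ∀ x ∈ p.support, x = s ∨ x = s' ∨ (¬ G.Adj v x ∧ x ≠ v)) : G.Adj s s' := by
  classical
  by_contra hss
  -- a shortest such walk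
  obtain ⟨q, hq, hqmin⟩ : ∃ q : G.Walk s s',
      (∀ x ∈ q.support, x = s ∨ x = s' ∨ (¬ G.Adj v x ∧ x ≠ v)) ∧
      ∀ r : G.Walk s s', (∀ x ∈ r.support, x = s ∨ x = s' ∨ (¬ G.Adj v x ∧ x ≠ v)) →
        q.length ≤ r.length := by
    have hex : ∃ n, ∃ q : G.Walk s s', q.length = n ∧
        ∀ x ∈ q.support, x = s ∨ x = s' ∨ (¬ G.Adj v x ∧ x ≠ v) := ⟨_, p, rfl, hp⟩
    obtain ⟨q, hq1, hq2⟩ := Nat.find_spec hex
    refine ⟨q, hq2, fun r hr => ?_⟩
    rw [hq1]
    exact Nat.find_min' hex ⟨r, rfl, hr⟩
  have hqlen : q.bypass.length = q.length :=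
    le_antisymm q.length_bypass_le_length (hqmin _ fun x hx => hq x (q.support_bypass_subset_support hx))
  have hqpath : q.IsPath := by
    have h1 := q.bypass_eq_self_of_length_le_length_bypass hqlen.ge
    rw [← h1]
    exact q.bypass_isPath
  have hvq : v ∉ q.support := by
    intro h
    rcases hq v h with h1 | h1 | h1
    · exact hs.ne h1
    · exact hs'.ne h1
    · exact h1.2 rfl
  have hlen : 2 ≤ q.length := by
    rcases hq' : q with _ | ⟨h1, r1⟩
    · exact absurd rfl hne
    · rcases r1 with _ | ⟨h2, r2⟩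
      · exact absurd h1 hss
      · simp
  -- the cycle
  set c : G.Walk v v := SimpleGraph.Walk.cons hs (q.concat hs'.symm) with hc
  have hcyc : c.IsCycle := by
    rw [hc, SimpleGraph.Walk.cons_isCycle_iff]
    refine ⟨hqpath.concat hvq hs'.symm, ?_⟩
    rw [SimpleGraph.Walk.edges_concat, mem_concat', not_or]
    refine ⟨fun h => hvq (q.fst_mem_support_of_mem_edges h), fun h => ?_⟩
    rw [Sym2.eq_iff] at h
    rcases h with ⟨h1, _⟩ | ⟨_, h1⟩
    · exact hs'.ne h1
    · exact hne h1
  have hclen : 4 ≤ c.length := by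
    rw [hc, SimpleGraph.Walk.length_cons, SimpleGraph.Walk.length_concat]
    omega
  obtain ⟨a, ha, b, hb, hab, hnab⟩ := hG v c hcyc hclen
  have hsupp : ∀ x, x ∈ c.support → x = v ∨ x ∈ q.support := by
    intro x hx
    rw [hc, SimpleGraph.Walk.support_cons, List.mem_cons, SimpleGraph.Walk.support_concat,
      List.mem_append, List.mem_singleton] at hx
    tauto
  have hes : s(v, s) ∈ c.edges := by
    rw [hc, SimpleGraph.Walk.edges_cons]
    exact List.mem_cons_self
  have hes' : s(v, s') ∈ c.edges := by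
    rw [hc, SimpleGraph.Walk.edges_cons, SimpleGraph.Walk.edges_concat]
    refine List.mem_cons_of_mem _ ?_
    rw [mem_concat', Sym2.eq_swap]
    exact Or.inr rfl
  have hv : ∀ x, x ∈ q.support → G.Adj v x → s(v, x) ∈ c.edges := by
    intro x hx hvx
    rcases hq x hx with h1 | h1 | h1
    · rw [h1]; exact hes
    · rw [h1]; exact hes'
    · exact absurd hvx h1.1
  rcases hsupp a ha with rfl | haq
  · rcases hsupp b hb with rfl | hbq
    · exact hab.ne rfl
    · exact hnab (hv b hbq hab)
  · rcases hsupp b hb with rfl | hbq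
    · rw [Sym2.eq_swap] at hnab
      exact hnab (hv a haq hab.symm)
    · have hnq : s(a, b) ∉ q.edges := by
        intro h
        apply hnab
        rw [hc, SimpleGraph.Walk.edges_cons, SimpleGraph.Walk.edges_concat]
        refine List.mem_cons_of_mem _ ?_
        rw [mem_concat']
        exact Or.inl h
      obtain ⟨r, hr1, hr2⟩ := exists_shorter q haq hbq hab hnq
      have := hqmin r fun x hx => hq x (hr2 x hx)
      omega

/-- simplicial vertices of the subgraph induced on `W` -/
def Simpl (G : SimpleGraph V) (W : Finset V) (x : V) : Prop :=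
  x ∈ W ∧ ∀ a ∈ W, ∀ b ∈ W, G.Adj x a → G.Adj x b → a ≠ b → G.Adj a b

theorem exists_simplicial_far [DecidableEq V] {G : SimpleGraph V} (hG : IsChordal G) (n : ℕ) :
    ∀ W : Finset V, W.card = n → ∀ v ∈ W, (∃ w ∈ W, w ≠ v ∧ ¬ G.Adj v w) →
      ∃ x, Simpl G W x ∧ x ≠ v ∧ ¬ G.Adj v x := by
  classical
  induction n using Nat.strong_induction_on with
  | _ n ih =>
  intro W hWn v hv ⟨u0, hu0W, hu0v, hu0⟩
  set A : Finset V := W.filter (fun w => w ≠ v ∧ ¬ G.Adj v w) with hA
  have hu0A : u0 ∈ A := mem_filter.2 ⟨hu0W, hu0v, hu0⟩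
  let Rl : V → V → Prop := fun a b => b ∈ A ∧ G.Adj a b
  set U : Finset V := A.filter (fun w => Relation.ReflTransGen Rl u0 w) with hU
  have hu0U : u0 ∈ U := mem_filter.2 ⟨hu0A, Relation.ReflTransGen.refl⟩
  have hUA : U ⊆ A := filter_subset _ _
  have hUW : U ⊆ W := hUA.trans (filter_subset _ _)
  have hUstep : ∀ u ∈ U, ∀ w ∈ A, G.Adj u w → w ∈ U := by
    intro u hu w hw huw
    exact mem_filter.2 ⟨hw, (mem_filter.1 hu).2.tail ⟨hw, huw⟩⟩
  -- walks inside `U`
  have hwalk0 : ∀ w, Relation.ReflTransGen Rl u0 w → w ∈ U ∧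
      ∃ p : G.Walk u0 w, ∀ x ∈ p.support, x ∈ U := by
    intro w hw
    induction hw with
    | refl => exact ⟨hu0U, SimpleGraph.Walk.nil, by simpa using hu0U⟩
    | @tail b c _ hbc ih2 =>
      obtain ⟨hb, p, hp⟩ := ih2
      have hc : c ∈ U := hUstep b hb c hbc.1 hbc.2
      refine ⟨hc, p.concat hbc.2, fun x hx => ?_⟩
      rw [SimpleGraph.Walk.support_concat, List.mem_append, List.mem_singleton] at hx
      rcases hx with hx | rfl
      · exact hp x hx
      · exact hc
  have hwalk : ∀ u ∈ U, ∀ u' ∈ U, ∃ p : G.Walk u u', ∀ x ∈ p.support, x ∈ U := by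
    intro u hu u' hu'
    obtain ⟨_, p, hp⟩ := hwalk0 u (mem_filter.1 hu).2
    obtain ⟨_, p', hp'⟩ := hwalk0 u' (mem_filter.1 hu').2
    refine ⟨p.reverse.append p', fun x hx => ?_⟩
    rw [SimpleGraph.Walk.mem_support_append_iff, SimpleGraph.Walk.support_reverse,
      List.mem_reverse] at hx
    rcases hx with hx | hx
    · exact hp x hx
    · exact hp' x hx
  set S : Finset V := W.filter (fun s => G.Adj v s ∧ ∃ u ∈ U, G.Adj s u) with hS
  have hSclique : ∀ s ∈ S, ∀ s' ∈ S, s ≠ s' → G.Adj s s' := by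
    intro s hs s' hs' hne
    obtain ⟨_, hvs, u, hu, hsu⟩ := mem_filter.1 hs
    obtain ⟨_, hvs', u', hu', hsu'⟩ := mem_filter.1 hs'
    obtain ⟨p, hp⟩ := hwalk u hu u' hu'
    refine adj_of_walk hG hvs hvs' hne (SimpleGraph.Walk.cons hsu (p.concat hsu'.symm)) ?_
    intro x hx
    rw [SimpleGraph.Walk.support_cons, List.mem_cons, SimpleGraph.Walk.support_concat,
      List.mem_append, List.mem_singleton] at hx
    rcases hx with rfl | hx | rfl
    · exact Or.inl rfl
    · have h1 := (mem_filter.1 (hUA (hp x hx))).2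
      exact Or.inr (Or.inr ⟨h1.2, h1.1⟩)
    · exact Or.inr (Or.inl rfl)
  -- neighbours of `U` in `W`
  have hnbr : ∀ u ∈ U, ∀ w ∈ W, G.Adj u w → w ∈ U ∪ S := by
    intro u hu w hw huw
    have hwv : w ≠ v := by
      rintro rfl
      exact (mem_filter.1 (hUA hu)).2.2 huw.symm
    by_cases h1 : G.Adj v w
    · exact mem_union_right _ (mem_filter.2 ⟨hw, h1, u, hu, huw.symm⟩)
    · exact mem_union_left _ (hUstep u hu w (mem_filter.2 ⟨hw, hwv, h1⟩) huw)
  have hSW : S ⊆ W := filter_subset _ _
  have hvnot : v ∉ U ∪ S := by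
    rw [mem_union, not_or]
    refine ⟨fun h => (mem_filter.1 (hUA h)).2.1 rfl, fun h => ?_⟩
    exact (mem_filter.1 h).2.1.ne rfl
  have hlt : (U ∪ S).card < n := by
    rw [← hWn]
    exact card_lt_card ⟨union_subset hUW hSW, fun h => hvnot (h hv)⟩
  have hlift : ∀ x ∈ U, Simpl G (U ∪ S) x → ∃ x, Simpl G W x ∧ x ≠ v ∧ ¬ G.Adj v x := by
    intro x hxU hx
    have hxA := (mem_filter.1 (hUA hxU)).2
    refine ⟨x, ⟨hUW hxU, ?_⟩, hxA.1, hxA.2⟩
    intro a ha b hb hxa hxb hab
    exact hx.2 a (hnbr x hxU a ha hxa) b (hnbr x hxU b hb hxb) hxa hxb hab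
  by_cases hcase : ∃ s ∈ S, ∃ w ∈ U ∪ S, w ≠ s ∧ ¬ G.Adj s w
  · obtain ⟨s, hs, w, hw, hws, hsw⟩ := hcase
    obtain ⟨x, hx, hxs, hsx⟩ := ih _ hlt (U ∪ S) rfl s (mem_union_right _ hs) ⟨w, hw, hws, hsw⟩
    have hxU : x ∈ U := by
      rcases mem_union.1 hx.1 with h1 | h1
      · exact h1
      · exact absurd (hSclique s hs x h1 hxs.symm) hsx
    exact hlift x hxU hx
  · push Not at hcase
    have hUlt : U.card < n := lt_of_le_of_lt (card_le_card subset_union_left) hlt
    have hUsimp : ∃ x, Simpl G U x := by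
      by_cases h1 : ∃ a ∈ U, ∃ b ∈ U, b ≠ a ∧ ¬ G.Adj a b
      · obtain ⟨a, ha, b, hb, hba, hab⟩ := h1
        obtain ⟨x, hx, _⟩ := ih _ hUlt U rfl a ha ⟨b, hb, hba, hab⟩
        exact ⟨x, hx⟩
      · push Not at h1
        exact ⟨u0, hu0U, fun a ha b hb _ _ hab => h1 a ha b hb hab.symm⟩
    obtain ⟨x, hxU, hx⟩ := hUsimp
    refine hlift x hxU ⟨mem_union_left _ hxU, ?_⟩
    intro a ha b hb hxa hxb hab
    rcases mem_union.1 ha with ha | ha
    · rcases mem_union.1 hb with hb | hb
      · exact hx a ha b hb hxa hxb hab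
      · exact (hcase b hb a (mem_union_left _ ha) hab).symm
    · exact hcase a ha b hb hab.symm

/-- Dirac's theorem. -/
theorem exists_simplicial [DecidableEq V] {G : SimpleGraph V} (hG : IsChordal G) {W : Finset V}
    (hW : W.Nonempty) : ∃ x, Simpl G W x := by
  by_cases h1 : ∃ a ∈ W, ∃ b ∈ W, b ≠ a ∧ ¬ G.Adj a b
  · obtain ⟨a, ha, b, hb, hba, hab⟩ := h1
    obtain ⟨x, hx, _⟩ := exists_simplicial_far hG _ W rfl a ha ⟨b, hb, hba, hab⟩
    exact ⟨x, hx⟩
  · push Not at h1
    obtain ⟨u, hu⟩ := hW
    exact ⟨u, hu, fun a ha b hb _ _ hab => h1 a ha b hb hab.symm⟩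

universe u

/-- Chordal graphs are proportionally `k`-choosable for `k ≥ Δ + 1`. -/
theorem prop_chordal {V : Type*} [Fintype V] [DecidableEq V] {C : Type u} [DecidableEq C]
    (G : SimpleGraph V) [DecidableRel G.Adj] (hG : IsChordal G) {k : ℕ}
    (hk : G.maxDegree + 1 ≤ k) (L : V → Finset C) (hL : ∀ v, (L v).card = k) :
    ∃ f : V → C, (∀ v, f v ∈ L v) ∧ (∀ u v, G.Adj u v → f u ≠ f v) ∧
      ∀ c : C, (univ.filter (fun v => c ∈ L v)).card / k ≤ (univ.filter (fun v => f v = c)).card ∧
        (univ.filter (fun v => f v = c)).card ≤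
          ((univ.filter (fun v => c ∈ L v)).card + k - 1) / k := by
  refine prop_union G (by omega) ?_ L hL
  intro W hW
  obtain ⟨v, hv, hvs⟩ := exists_simplicial hG hW
  refine ⟨v, hv, fun u hu hvu => ?_⟩
  have h1 : W.filter (fun a => G.Adj v a ∨ G.Adj u a) ⊆ insert u (G.neighborFinset u) := by
    intro a ha
    rw [mem_filter] at ha
    rw [mem_insert, SimpleGraph.mem_neighborFinset]
    rcases ha.2 with h2 | h2
    · by_cases h3 : a = u
      · exact Or.inl h3
      · exact Or.inr (hvs u hu a ha.1 hvu h2 (Ne.symm h3))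
    · exact Or.inr h2
  have h2 := card_le_card h1
  have h3 := card_insert_le u (G.neighborFinset u)
  have h4 := G.degree_le_maxDegree u
  rw [← G.card_neighborFinset_eq_degree] at h4
  omega

end Pool.Agent.H82.Top
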