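import Pool.Agent.H82.Top.Main

/-!
# Arbitrary colour types; graphs of bounded degree
-/

set_option autoImplicit false

open Finset

namespace Pool.Agent.H82.Top

universe u

variable {V : Type*} [Fintype V] [DecidableEq V]

/-- The form of `prop_main` for an arbitrary type of colours. -/
theorem prop_general {C : Type u} [DecidableEq C] (G : SimpleGraph V) {k : ℕ} (hk : 1 ≤ k)
    (L : V → Finset C) (hL : ∀ v, (L v).card = k)
    (hG : ∀ (C' : Type u) [Fintype C'] [DecidableEq C'] (n : ℕ) (c : C') (U : Finset V) (m : ℕ),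
      k * m < U.card →
      Exact (ind (conf G (Fin n) C') (U.image (fun v => ((Sum.inl v : V ⊕ Fin n), c)))) m) :
    ∃ f : V → C, (∀ v, f v ∈ L v) ∧ (∀ u v, G.Adj u v → f u ≠ f v) ∧
      ∀ c : C, (univ.filter (fun v => c ∈ L v)).card / k ≤ (univ.filter (fun v => f v = c)).card ∧
        (univ.filter (fun v => f v = c)).card ≤
          ((univ.filter (fun v => c ∈ L v)).card + k - 1) / k := by
  classical
  set K : Finset C := univ.biUnion L with hK
  let L' : V → Finset K := fun v => univ.filter (fun c => c.1 ∈ L v)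
  have hL' : ∀ v, (L' v).card = k := by
    intro v
    rw [← hL v]
    refine card_bij (fun c _ => c.1) ?_ ?_ ?_
    · intro c hc
      exact (mem_filter.1 hc).2
    · intro a _ b _ hab
      exact Subtype.ext hab
    · intro c hc
      exact ⟨⟨c, mem_biUnion.2 ⟨v, mem_univ _, hc⟩⟩, mem_filter.2 ⟨mem_univ _, hc⟩, rfl⟩
  obtain ⟨f, hf1, hf2, hf3⟩ := prop_main G hk L' hL' (fun n c U m h => hG K n c U m h)
  refine ⟨fun v => (f v).1, fun v => (mem_filter.1 (hf1 v)).2,
    fun u v huv h => hf2 u v huv (Subtype.ext h), fun c => ?_⟩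
  by_cases hc : c ∈ K
  · have h1 := hf3 ⟨c, hc⟩
    have h2 : (univ.filter (fun v => (⟨c, hc⟩ : K) ∈ L' v)) = univ.filter (fun v => c ∈ L v) := by
      refine filter_congr fun v _ => ?_
      rw [mem_filter]
      exact ⟨fun h => h.2, fun h => ⟨mem_univ _, h⟩⟩
    have h3 : (univ.filter (fun v => f v = (⟨c, hc⟩ : K))) =
        univ.filter (fun v => (f v).1 = c) := by
      refine filter_congr fun v _ => ?_
      exact ⟨fun h => by rw [h], fun h => Subtype.ext h⟩
    rw [h2, h3] at h1
    exact h1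
  · have h2 : (univ.filter (fun v => c ∈ L v)) = ∅ := by
      rw [filter_eq_empty_iff]
      intro v _ h
      exact hc (mem_biUnion.2 ⟨v, mem_univ _, h⟩)
    have h3 : (univ.filter (fun v => (f v).1 = c)) = ∅ := by
      rw [filter_eq_empty_iff]
      intro v _ h
      exact hc (h ▸ (f v).2)
    rw [h2, h3]
    simp

theorem card_image_inl {C : Type*} [DecidableEq C] (n : ℕ) (c : C) (U : Finset V) :
    (U.image (fun v => ((Sum.inl v : V ⊕ Fin n), c))).card = U.card := by
  refine card_image_of_injective _ fun a b hab => ?_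
  simpa using hab

/-- The combinatorial condition for a graph. -/
theorem prop_union {C : Type u} [DecidableEq C] (G : SimpleGraph V) [DecidableRel G.Adj] {k : ℕ}
    (hk : 1 ≤ k)
    (hG : ∀ W : Finset V, W.Nonempty → ∃ v ∈ W, ∀ u ∈ W, G.Adj v u →
      (W.filter (fun a => G.Adj v a ∨ G.Adj u a)).card ≤ k)
    (L : V → Finset C) (hL : ∀ v, (L v).card = k) :
    ∃ f : V → C, (∀ v, f v ∈ L v) ∧ (∀ u v, G.Adj u v → f u ≠ f v) ∧
      ∀ c : C, (univ.filter (fun v => c ∈ L v)).card / k ≤ (univ.filter (fun v => f v = c)).card ∧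
        (univ.filter (fun v => f v = c)).card ≤
          ((univ.filter (fun v => c ∈ L v)).card + k - 1) / k := by
  classical
  refine prop_general G hk L hL ?_
  intro C' _ _ n c U m hm
  refine exact_ind (conf_symm G (Fin n) C') (conf_irr G (Fin n) C') (k := k) ?_ ?_
  · intro W' hW' hne
    set W : Finset V := U.filter (fun v => ((Sum.inl v : V ⊕ Fin n), c) ∈ W') with hW
    have hW'eq : W' = W.image (fun v => ((Sum.inl v : V ⊕ Fin n), c)) := by
      ext e
      constructor
      · intro he
        obtain ⟨v, hv, rfl⟩ := mem_image.1 (hW' he)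
        exact mem_image.2 ⟨v, mem_filter.2 ⟨hv, he⟩, rfl⟩
      · intro he
        obtain ⟨v, hv, rfl⟩ := mem_image.1 he
        exact (mem_filter.1 hv).2
    have hWne : W.Nonempty := by
      obtain ⟨e, he⟩ := hne
      rw [hW'eq, mem_image] at he
      obtain ⟨v, hv, _⟩ := he
      exact ⟨v, hv⟩
    obtain ⟨v, hv, hvk⟩ := hG W hWne
    refine ⟨(Sum.inl v, c), (mem_filter.1 hv).2, ?_⟩
    intro e he hRe
    rw [hW'eq, mem_image] at he
    obtain ⟨u, hu, rfl⟩ := he
    refine le_trans ?_ (hvk u hu (conf_inl.1 hRe))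
    have h1 : W'.filter (fun a => conf G (Fin n) C' (Sum.inl v, c) a ∨
        conf G (Fin n) C' (Sum.inl u, c) a) ⊆
        (W.filter (fun a => G.Adj v a ∨ G.Adj u a)).image
          (fun v => ((Sum.inl v : V ⊕ Fin n), c)) := by
      intro a ha
      rw [mem_filter, hW'eq, mem_image] at ha
      obtain ⟨⟨w, hw, rfl⟩, h2⟩ := ha
      rw [conf_inl, conf_inl] at h2
      exact mem_image.2 ⟨w, mem_filter.2 ⟨hw, h2⟩, rfl⟩
    exact (card_le_card h1).trans card_image_le
  · rw [card_image_inl]
    exact hm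

/-- Every `d`-degenerate graph of maximum degree at most `k - d` is proportionally `k`-choosable,
`d ≥ 1`. -/
theorem prop_degenerate {C : Type u} [DecidableEq C] (G : SimpleGraph V) [DecidableRel G.Adj]
    {d k : ℕ} (hd : 1 ≤ d)
    (hG : ∀ W : Finset V, W.Nonempty → ∃ v ∈ W, (W.filter (fun u => G.Adj v u)).card ≤ d)
    (hk : G.maxDegree + d ≤ k) (L : V → Finset C) (hL : ∀ v, (L v).card = k) :
    ∃ f : V → C, (∀ v, f v ∈ L v) ∧ (∀ u v, G.Adj u v → f u ≠ f v) ∧
      ∀ c : C, (univ.filter (fun v => c ∈ L v)).card / k ≤ (univ.filter (fun v => f v = c)).card ∧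
        (univ.filter (fun v => f v = c)).card ≤
          ((univ.filter (fun v => c ∈ L v)).card + k - 1) / k := by
  refine prop_union G (by omega) ?_ L hL
  intro W hW
  obtain ⟨v, hv, hvd⟩ := hG W hW
  refine ⟨v, hv, fun u _ _ => ?_⟩
  have h1 : W.filter (fun a => G.Adj v a ∨ G.Adj u a) ⊆
      W.filter (fun a => G.Adj v a) ∪ G.neighborFinset u := by
    intro a ha
    rw [mem_filter] at ha
    rcases ha.2 with h2 | h2
    · exact mem_union_left _ (mem_filter.2 ⟨ha.1, h2⟩)
    · exact mem_union_right _ (by rw [SimpleGraph.mem_neighborFinset]; exact h2)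
  have h2 := card_le_card h1
  have h3 := card_union_le (W.filter (fun a => G.Adj v a)) (G.neighborFinset u)
  have h4 := G.degree_le_maxDegree u
  rw [← G.card_neighborFinset_eq_degree] at h4
  omega

end Pool.Agent.H82.Top
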