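import Pool.Agent.H82.Top.Chain

/-!
# The homological Hall theorem

Let the ground set `E` be divided into parts by `p : E → I` and let `X` be a down-closed family of
subsets of `E`. If for every nonempty `J ⊆ I` the members of `X` contained in the parts `J` form a
family that is exact at size `|J| - 1`, then `X` has a member that contains exactly one element of
each part.
-/

set_option autoImplicit false

open Finset

namespace Pool.Agent.H82.Top

variable {E I : Type*}

/-- members of `X` contained in the parts `J` -/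
def restr (p : E → I) (X : Set (Finset E)) (J : Finset I) : Set (Finset E) :=
  {σ | σ ∈ X ∧ ∀ e ∈ σ, p e ∈ J}

theorem restr_mono (p : E → I) (X : Set (Finset E)) {J K : Finset I} (h : J ⊆ K) :
    restr p X J ⊆ restr p X K := fun _ hσ => ⟨hσ.1, fun e he => h (hσ.2 e he)⟩

variable [Fintype E] [DecidableEq E] [DecidableEq I]

/-- number of rainbow simplices modulo 2 -/
def T (p : E → I) (J : Finset I) (z : Ch E) : ZMod 2 :=
  ∑ σ ∈ univ.filter (fun σ : Finset E => σ.image p = J ∧ σ.card = J.card), z σ

omit [Fintype E] in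
theorem parity (p : E → I) {J : Finset I} {i : I} (hi : i ∈ J) {σ : Finset E}
    (hσ : σ.card = J.card) (hp : ∀ e ∈ σ, p e ∈ J) :
    (((σ.filter (fun e => (σ.erase e).image p = J.erase i)).card : ℕ) : ZMod 2) =
      if σ.image p = J then 1 else 0 := by
  by_cases h : σ.image p = J
  · rw [if_pos h]
    have hinj : Set.InjOn p (σ : Set E) := by
      rw [← card_image_iff, h, hσ]
    have h1 : σ.filter (fun e => (σ.erase e).image p = J.erase i) =
        σ.filter (fun e => p e = i) := by
      refine filter_congr fun e he => ?_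
      have h2 : (σ.erase e).image p = J.erase (p e) := by
        rw [← h]
        ext j
        simp only [mem_image, mem_erase]
        constructor
        · rintro ⟨a, ⟨h3, h4⟩, rfl⟩
          exact ⟨fun h5 => h3 (hinj h4 he h5), a, h4, rfl⟩
        · rintro ⟨h3, a, h4, rfl⟩
          exact ⟨a, ⟨fun h5 => h3 (by rw [h5]), h4⟩, rfl⟩
      rw [h2]
      constructor
      · intro h3
        by_contra h4
        have h5 : p e ∈ J.erase i := mem_erase.2 ⟨h4, hp e he⟩
        rw [← h3] at h5
        exact notMem_erase _ _ h5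
      · rintro rfl
        rfl
    rw [h1]
    obtain ⟨e0, he0, hpe0⟩ := mem_image.1 (h ▸ hi : i ∈ σ.image p)
    have h3 : σ.filter (fun e => p e = i) = {e0} := by
      ext e
      rw [mem_filter, mem_singleton]
      constructor
      · rintro ⟨h4, h5⟩
        exact hinj h4 he0 (h5.trans hpe0.symm)
      · rintro rfl
        exact ⟨he0, hpe0⟩
    rw [h3, card_singleton, Nat.cast_one]
  · rw [if_neg h]
    by_cases hA : (σ.filter (fun e => (σ.erase e).image p = J.erase i)) = ∅
    · rw [hA, card_empty, Nat.cast_zero]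
    obtain ⟨e1, he1⟩ := nonempty_iff_ne_empty.2 hA
    obtain ⟨he1σ, him1⟩ := mem_filter.1 he1
    have hinj : Set.InjOn p (σ.erase e1 : Finset E) := by
      rw [← card_image_iff, him1, card_erase_of_mem hi, card_erase_of_mem he1σ, hσ]
    have hpe1 : p e1 ≠ i := by
      intro h1
      apply h
      rw [← insert_erase he1σ, image_insert, him1, h1, insert_erase hi]
    have h2 : p e1 ∈ (σ.erase e1).image p := by
      rw [him1]
      exact mem_erase.2 ⟨hpe1, hp e1 he1σ⟩
    obtain ⟨e2, he2, hpe2⟩ := mem_image.1 h2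
    obtain ⟨hne21, he2σ⟩ := mem_erase.1 he2
    have h3 : σ.filter (fun e => (σ.erase e).image p = J.erase i) = {e1, e2} := by
      ext e3
      rw [mem_insert, mem_singleton]
      constructor
      · intro he3
        obtain ⟨he3σ, him3⟩ := mem_filter.1 he3
        by_contra hcon
        rw [not_or] at hcon
        have h4 : p e3 ∈ (σ.erase e3).image p := by
          rw [him3, ← him1]
          exact mem_image_of_mem p (mem_erase.2 ⟨hcon.1, he3σ⟩)
        obtain ⟨e4, he4, hpe4⟩ := mem_image.1 h4
        obtain ⟨hne43, he4σ⟩ := mem_erase.1 he4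
        by_cases h5 : e4 = e1
        · subst h5
          refine hcon.2 (hinj (mem_coe.2 (mem_erase.2 ⟨hcon.1, he3σ⟩))
            (mem_coe.2 he2) ?_)
          rw [← hpe4, hpe2]
        · exact hne43 (hinj (mem_coe.2 (mem_erase.2 ⟨h5, he4σ⟩))
            (mem_coe.2 (mem_erase.2 ⟨hcon.1, he3σ⟩)) hpe4)
      · rintro (rfl | rfl)
        · exact he1
        · refine mem_filter.2 ⟨he2σ, ?_⟩
          have h5 : σ.erase e3 = insert e1 ((σ.erase e1).erase e3) := by
            ext a
            simp only [mem_erase, mem_insert]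
            constructor
            · rintro ⟨h6, h7⟩
              by_cases h8 : a = e1
              · exact Or.inl h8
              · exact Or.inr ⟨h6, h8, h7⟩
            · rintro (rfl | ⟨h6, h7, h8⟩)
              · exact ⟨hne21.symm, he1σ⟩
              · exact ⟨h6, h8⟩
          rw [h5, image_insert, ← hpe2, ← image_insert, insert_erase he2, him1]
    rw [h3, card_pair hne21.symm]
    rfl

theorem T_bd (p : E → I) {X : Set (Finset E)} {J : Finset I} {i : I} (hi : i ∈ J) {w : Ch E}
    (hw : w ∈ chains (restr p X J) J.card) : T p (J.erase i) (bd w) = T p J w := by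
  unfold T
  simp only [bd_apply]
  rw [Finset.sum_sigma']
  have h1 : ∑ x ∈ (univ.filter (fun σ : Finset E => σ.image p = J.erase i ∧
        σ.card = (J.erase i).card)).sigma (fun τ => τᶜ), w (insert x.2 x.1) =
      ∑ x ∈ (univ.filter (fun σ : Finset E => σ.card = J.card)).sigma
        (fun σ => σ.filter (fun e => (σ.erase e).image p = J.erase i)), w x.1 := by
    refine Finset.sum_bij' (fun x _ => ⟨insert x.2 x.1, x.2⟩) (fun x _ => ⟨x.1.erase x.2, x.2⟩)
      ?_ ?_ ?_ ?_ ?_
    · rintro ⟨τ, e⟩ h
      simp only [mem_sigma, mem_filter, mem_univ, true_and, mem_compl] at h ⊢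
      obtain ⟨⟨h1, h2⟩, h3⟩ := h
      refine ⟨?_, mem_insert_self _ _, ?_⟩
      · rw [card_insert_of_notMem h3, h2, card_erase_of_mem hi]
        have := card_pos.2 ⟨i, hi⟩
        omega
      · rw [erase_insert h3, h1]
    · rintro ⟨σ, e⟩ h
      simp only [mem_sigma, mem_filter, mem_univ, true_and, mem_compl] at h ⊢
      obtain ⟨h1, h2, h3⟩ := h
      refine ⟨⟨h3, ?_⟩, notMem_erase _ _⟩
      rw [card_erase_of_mem h2, card_erase_of_mem hi, h1]
    · rintro ⟨τ, e⟩ h
      simp only [mem_sigma, mem_filter, mem_univ, true_and, mem_compl] at h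
      simp only [erase_insert h.2]
    · rintro ⟨σ, e⟩ h
      simp only [mem_sigma, mem_filter, mem_univ, true_and, mem_compl] at h
      simp only [insert_erase h.2.1]
    · rintro ⟨τ, e⟩ h
      rfl
  rw [h1, Finset.sum_sigma]
  simp only [sum_const, nsmul_eq_mul]
  have h2 : univ.filter (fun σ : Finset E => σ.image p = J ∧ σ.card = J.card) =
      (univ.filter (fun σ : Finset E => σ.card = J.card)).filter (fun σ => σ.image p = J) := by
    ext σ
    simp only [mem_filter, mem_univ, true_and]
    tauto
  conv_rhs => rw [h2, sum_filter]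
  refine sum_congr rfl fun σ hσ => ?_
  rw [mem_filter] at hσ
  by_cases h3 : w σ = 0
  · simp [h3]
  · rw [parity p hi hσ.2 (hw σ h3).1.2]
    split_ifs <;> simp

theorem T_eq_zero (p : E → I) {X : Set (Finset E)} {J : Finset I} {i j : I} (hj : j ∈ J)
    (hij : j ≠ i) {w : Ch E} {m : ℕ} (hw : w ∈ chains (restr p X (J.erase j)) m) :
    T p (J.erase i) w = 0 := by
  unfold T
  refine sum_eq_zero fun σ hσ => ?_
  rw [mem_filter] at hσ
  by_contra h
  have h1 : j ∈ σ.image p := by
    rw [hσ.2.1]
    exact mem_erase.2 ⟨hij, hj⟩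
  obtain ⟨e, he, hpe⟩ := mem_image.1 h1
  have h2 := (hw σ h).1.2 e he
  rw [hpe] at h2
  exact notMem_erase _ _ h2

theorem exists_phi (p : E → I) {X : Set (Finset E)} (hemp : (∅ : Finset E) ∈ X)
    (h : ∀ J : Finset I, J.Nonempty → Exact (restr p X J) (J.card - 1)) (n : ℕ) :
    ∃ φ : Finset I → Ch E, (φ ∅ = fun σ => if σ = ∅ then 1 else 0) ∧
      ∀ J : Finset I, J.card ≤ n → φ J ∈ chains (restr p X J) J.card ∧
        bd (φ J) = ∑ i ∈ J, φ (J.erase i) := by
  induction n with
  | zero =>
    refine ⟨fun _ σ => if σ = ∅ then 1 else 0, rfl, ?_⟩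
    intro J hJ
    have hJ' : J = ∅ := card_eq_zero.1 (by omega)
    subst hJ'
    have hmem : (fun σ : Finset E => if σ = ∅ then (1 : ZMod 2) else 0) ∈
        chains (restr p X ∅) (∅ : Finset I).card := by
      intro σ hσ
      by_cases h1 : σ = ∅
      · subst h1
        exact ⟨⟨hemp, by simp⟩, rfl⟩
      · simp [h1] at hσ
    exact ⟨hmem, by rw [bd_zero_size hmem, sum_empty]⟩
  | succ n ih =>
    obtain ⟨φ, h0, hφ⟩ := ih
    have hstep : ∀ J : Finset I, J.card = n + 1 → ∃ w ∈ chains (restr p X J) J.card,
        bd w = ∑ i ∈ J, φ (J.erase i) := by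
      intro J hJ
      have hne : J.Nonempty := card_pos.1 (by omega)
      have hcard : ∀ i ∈ J, (J.erase i).card = n := fun i hi => by
        rw [card_erase_of_mem hi, hJ]; rfl
      have hz : (∑ i ∈ J, φ (J.erase i)) ∈ chains (restr p X J) n := by
        refine Submodule.sum_mem _ fun i hi => ?_
        have h1 := (hφ (J.erase i) (hcard i hi).le).1
        rw [hcard i hi] at h1
        exact chains_mono (restr_mono p X (erase_subset _ _)) n h1
      have hb : bd (∑ i ∈ J, φ (J.erase i)) = 0 := by
        rw [map_sum]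
        have h1 : ∀ i ∈ J, bd (φ (J.erase i)) = ∑ j ∈ J.erase i, φ ((J.erase i).erase j) :=
          fun i hi => (hφ (J.erase i) (hcard i hi).le).2
        rw [sum_congr rfl h1, sum_sigma']
        refine sum_involution (fun x _ => ⟨x.2, x.1⟩) ?_ ?_ ?_ ?_
        · rintro ⟨a, b⟩ _
          simp only
          rw [erase_right_comm]
          exact ch_add_self _
        · rintro ⟨a, b⟩ hab _ heq
          simp only [mem_sigma, mem_erase] at hab
          simp only [Sigma.mk.injEq, heq_eq_eq] at heq
          exact hab.2.1 heq.1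
        · rintro ⟨a, b⟩ hab
          simp only [mem_sigma, mem_erase] at hab ⊢
          exact ⟨hab.2.2, fun h1 => hab.2.1 h1.symm, hab.1⟩
        · rintro ⟨a, b⟩ _
          rfl
      have h2 := h J hne
      rw [hJ, Nat.add_sub_cancel] at h2
      obtain ⟨w, hw, hbw⟩ := h2 _ hz hb
      rw [hJ]
      exact ⟨w, hw, hbw⟩
    choose! ψ hψ1 hψ2 using hstep
    refine ⟨fun J => if J.card = n + 1 then ψ J else φ J, ?_, ?_⟩
    · have h1 : (∅ : Finset I).card ≠ n + 1 := by simp
      simp only [if_neg h1]
      exact h0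
    · intro J hJ
      have herase : ∀ i ∈ J, (J.erase i).card ≠ n + 1 := by
        intro i hi h1
        rw [card_erase_of_mem hi] at h1
        have := card_pos.2 ⟨i, hi⟩
        omega
      have hsum : ∑ i ∈ J, (fun J => if J.card = n + 1 then ψ J else φ J) (J.erase i) =
          ∑ i ∈ J, φ (J.erase i) := by
        refine sum_congr rfl fun i hi => ?_
        simp only
        rw [if_neg (herase i hi)]
      rw [hsum]
      simp only
      by_cases h1 : J.card = n + 1
      · rw [if_pos h1]
        exact ⟨hψ1 J h1, hψ2 J h1⟩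
      · rw [if_neg h1]
        exact hφ J (by omega)

/-- The homological Hall theorem. -/
theorem hall [Fintype I] (p : E → I) {X : Set (Finset E)} (hemp : (∅ : Finset E) ∈ X)
    (h : ∀ J : Finset I, J.Nonempty → Exact (restr p X J) (J.card - 1)) :
    ∃ σ ∈ X, ∀ i, ∃! e, e ∈ σ ∧ p e = i := by
  obtain ⟨φ, h0, hφ⟩ := exists_phi p hemp h (Fintype.card I)
  have hT : ∀ n, ∀ J : Finset I, J.card = n → T p J (φ J) = 1 := by
    intro n
    induction n with
    | zero =>
      intro J hJ
      rw [card_eq_zero] at hJ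
      subst hJ
      rw [h0]
      unfold T
      rw [sum_eq_single_of_mem ∅ (by simp)]
      · simp
      · intro σ _ hσ
        rw [if_neg hσ]
    | succ n ih =>
      intro J hJ
      obtain ⟨i, hi⟩ : J.Nonempty := card_pos.1 (by omega)
      have hJI : J.card ≤ Fintype.card I := card_le_univ J
      obtain ⟨h1, h2⟩ := hφ J hJI
      rw [← T_bd p hi h1, h2]
      have h3 : T p (J.erase i) (∑ j ∈ J, φ (J.erase j)) =
          ∑ j ∈ J, T p (J.erase i) (φ (J.erase j)) := by
        unfold T
        rw [sum_comm]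
        refine sum_congr rfl fun σ _ => ?_
        rw [Finset.sum_apply]
      rw [h3, sum_eq_single_of_mem i hi]
      · exact ih _ (by rw [card_erase_of_mem hi, hJ]; rfl)
      · intro j hj hji
        exact T_eq_zero p hj hji (hφ (J.erase j) (card_le_univ _)).1
  have h1 := hT _ univ rfl
  unfold T at h1
  obtain ⟨σ, hσ, hne⟩ := exists_ne_zero_of_sum_ne_zero (by rw [h1]; exact one_ne_zero)
  rw [mem_filter] at hσ
  obtain ⟨h2, _⟩ := (hφ univ (card_le_univ _)).1 σ hne
  refine ⟨σ, h2.1, fun i => ?_⟩
  obtain ⟨e, he, hpe⟩ := mem_image.1 (hσ.2.1 ▸ mem_univ i : i ∈ σ.image p)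
  refine ⟨e, ⟨he, hpe⟩, ?_⟩
  rintro e' ⟨he', hpe'⟩
  have hinj : Set.InjOn p (σ : Set E) := by
    rw [← card_image_iff, hσ.2.1, hσ.2.2]
  exact hinj he' he (hpe'.trans hpe.symm)

end Pool.Agent.H82.Top
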