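import Pool.Agent.H82.Top.Chain

/-!
# Exactness of independence complexes

`ind R W` is the family of the `R`-independent subsets of `W`. Suppose that every nonempty subset of
`W` contains an element `v` such that, inside this subset, the neighbourhoods of `v` and of any
neighbour of `v` have together at most `k` elements. Then `ind R W` is exact at size `m` whenever
`k m < |W|`. Examples: maximum degree at most `k / 2`; maximum degree `D` and `(k - D)`-degenerate;
chordal with maximum degree at most `k - 1`.
-/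

set_option autoImplicit false

open Finset

namespace Pool.Agent.H82.Top

variable {E : Type*}

/-- independent subsets of `W` -/
def ind (R : E → E → Prop) (W : Finset E) : Set (Finset E) :=
  {σ | σ ⊆ W ∧ ∀ a ∈ σ, ∀ b ∈ σ, ¬ R a b}

theorem ind_down (R : E → E → Prop) (W : Finset E) : IsDown (ind R W) := by
  rintro σ ⟨h1, h2⟩ τ hτ
  exact ⟨hτ.trans h1, fun a ha b hb => h2 a (hτ ha) b (hτ hb)⟩

theorem ind_mono_set (R : E → E → Prop) {W W' : Finset E} (h : W ⊆ W') : ind R W ⊆ ind R W' :=
  fun _ hσ => ⟨hσ.1.trans h, hσ.2⟩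

variable [Fintype E] [DecidableEq E]

theorem exact_of_isolated {R : E → E → Prop} {W : Finset E} {v : E} (hv : v ∈ W)
    (h1 : ¬ R v v) (h2 : ∀ a ∈ W, ¬ R v a ∧ ¬ R a v) (m : ℕ) : Exact (ind R W) m := by
  refine exact_of_cone (v := v) ?_ m
  rintro ρ ⟨h3, h4⟩
  refine ⟨insert_subset hv h3, ?_⟩
  intro a ha b hb
  rw [mem_insert] at ha hb
  rcases ha with rfl | ha
  · rcases hb with rfl | hb
    · exact h1
    · exact (h2 b (h3 hb)).1
  · rcases hb with rfl | hb
    · exact (h2 a (h3 ha)).2
    · exact h4 a ha b hb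

/-- The bound for independence complexes: suppose that every nonempty subset of `W` contains an
element `v` such that, inside this subset, the neighbourhoods of `v` and of any neighbour of `v`
have together at most `k` elements. -/
theorem exact_ind {R : E → E → Prop} [DecidableRel R] (hsymm : ∀ a b, R a b → R b a)
    (hirr : ∀ a, ¬ R a a) {W : Finset E} {k : ℕ}
    (hd : ∀ W' ⊆ W, W'.Nonempty → ∃ v ∈ W', ∀ u ∈ W', R v u →
      (W'.filter (fun a => R v a ∨ R u a)).card ≤ k)
    {m : ℕ} (hm : k * m < W.card) : Exact (ind R W) m := by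
  obtain ⟨n, hn⟩ : ∃ n, ((W ×ˢ W).filter (fun p => R p.1 p.2)).card = n := ⟨_, rfl⟩
  induction n using Nat.strong_induction_on generalizing R W m with
  | _ n ih =>
  obtain ⟨x, hx, hxk⟩ := hd W (Subset.refl _) (card_pos.1 (by omega))
  by_cases hE : ∃ y ∈ W, R x y
  · obtain ⟨y, hy, hxy⟩ := hE
    have hne : x ≠ y := by rintro rfl; exact hirr _ hxy
    have hyx := hsymm _ _ hxy
    rcases Nat.eq_zero_or_pos m with rfl | hmpos
    · exact exact_zero (v := x) ⟨by simpa using hx, by
        intro a ha b hb
        rw [mem_singleton] at ha hb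
        subst ha; subst hb; exact hirr _⟩
    obtain ⟨m', rfl⟩ : ∃ m', m = m' + 1 := ⟨m - 1, by omega⟩
    -- the relation without the edge
    let R' : E → E → Prop := fun a b => R a b ∧ ¬ ((a = x ∧ b = y) ∨ (a = y ∧ b = x))
    have hR' : ∀ a b, R' a b ↔ R a b ∧ ¬ ((a = x ∧ b = y) ∨ (a = y ∧ b = x)) := fun _ _ => Iff.rfl
    have : DecidableRel R' := fun a b => by unfold R'; infer_instance
    have hex' : Exact (ind R' W) (m' + 1) := by
      refine ih _ ?_ (R := R') ?_ ?_ ?_ hm rfl
      · rw [← hn]
        refine card_lt_card ⟨?_, ?_⟩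
        · intro p hp
          rw [mem_filter] at hp ⊢
          exact ⟨hp.1, hp.2.1⟩
        · intro hsub
          have := hsub (mem_filter.2 ⟨mem_product.2 ⟨hx, hy⟩, hxy⟩ : (x, y) ∈ _)
          rw [mem_filter] at this
          exact this.2.2 (Or.inl ⟨rfl, rfl⟩)
      · rintro a b ⟨h1, h2⟩
        refine ⟨hsymm _ _ h1, fun h3 => h2 ?_⟩
        rcases h3 with ⟨h4, h5⟩ | ⟨h4, h5⟩
        · exact Or.inr ⟨h5, h4⟩
        · exact Or.inl ⟨h5, h4⟩
      · intro a h1
        exact hirr a h1.1
      · intro W' hW' hne'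
        obtain ⟨v, hv, hvk⟩ := hd W' hW' hne'
        refine ⟨v, hv, fun u hu huv => (card_le_card ?_).trans (hvk u hu huv.1)⟩
        intro b hb
        rw [mem_filter] at hb ⊢
        refine ⟨hb.1, ?_⟩
        rcases hb.2 with h1 | h1
        · exact Or.inl h1.1
        · exact Or.inr h1.1
    -- the link
    let W' : Finset E := W.filter (fun a => ¬ R x a ∧ ¬ R y a)
    have hW'W : W' ⊆ W := filter_subset _ _
    have hxW' : x ∉ W' := by
      intro h
      exact (mem_filter.1 h).2.2 hyx
    have hyW' : y ∉ W' := by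
      intro h
      exact (mem_filter.1 h).2.1 hxy
    have hcard : W.card ≤ W'.card + k := by
      have h1 : W ⊆ W' ∪ W.filter (fun a => R x a ∨ R y a) := by
        intro a ha
        by_cases h2 : R x a
        · exact mem_union_right _ (mem_filter.2 ⟨ha, Or.inl h2⟩)
        · by_cases h3 : R y a
          · exact mem_union_right _ (mem_filter.2 ⟨ha, Or.inr h3⟩)
          · exact mem_union_left _ (mem_filter.2 ⟨ha, h2, h3⟩)
      have h2 := card_le_card h1
      have h3 := card_union_le W' (W.filter (fun a => R x a ∨ R y a))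
      have h5 := hxk y hy hxy
      omega
    have hex'' : Exact (ind R W') m' := by
      refine ih _ ?_ (R := R) hsymm hirr ?_ ?_ rfl
      · rw [← hn]
        refine card_lt_card ⟨?_, ?_⟩
        · intro p hp
          rw [mem_filter, mem_product] at hp ⊢
          exact ⟨⟨hW'W hp.1.1, hW'W hp.1.2⟩, hp.2⟩
        · intro hsub
          have := hsub (mem_filter.2 ⟨mem_product.2 ⟨hx, hy⟩, hxy⟩ : (x, y) ∈ _)
          rw [mem_filter, mem_product] at this
          exact hxW' this.1.1
      · exact fun W'' hW'' hne'' => hd W'' (hW''.trans hW'W) hne''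
      · have : k * (m' + 1) = k * m' + k := by ring
        omega
    intro z hz hbz
    have hsubR : ind R W ⊆ ind R' W := by
      rintro σ ⟨h1, h2⟩
      exact ⟨h1, fun a ha b hb h3 => h2 a ha b hb h3.1⟩
    obtain ⟨w, hw, hwz⟩ := hex' z (chains_mono hsubR _ hz) hbz
    -- the link chain
    set u : Ch E := lk x (lk y w) with hu
    have hu_apply : ∀ ρ, u ρ = if x ∈ ρ ∨ y ∈ ρ then 0 else w (insert y (insert x ρ)) := by
      intro ρ
      rw [hu, lk_apply, lk_apply]
      by_cases h1 : x ∈ ρ
      · simp [h1]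
      · by_cases h2 : y ∈ ρ
        · simp [h1, h2]
        · simp [h1, h2, hne.symm]
    have hu_mem : u ∈ chains (ind R W') m' := by
      intro ρ hρ
      rw [hu_apply] at hρ
      by_cases h1 : x ∈ ρ ∨ y ∈ ρ
      · rw [if_pos h1] at hρ
        exact absurd rfl hρ
      rw [if_neg h1] at hρ
      rw [not_or] at h1
      obtain ⟨⟨h2, h3⟩, h4⟩ := hw _ hρ
      have hyn : y ∉ insert x ρ := by
        rw [mem_insert, not_or]; exact ⟨hne.symm, h1.2⟩
      refine ⟨⟨?_, ?_⟩, ?_⟩
      · intro a ha
        have ha' : a ∈ insert y (insert x ρ) := mem_insert_of_mem (mem_insert_of_mem ha)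
        refine mem_filter.2 ⟨h2 ha', ?_, ?_⟩
        · intro h5
          refine h3 x (mem_insert_of_mem (mem_insert_self _ _)) a ha' ⟨h5, ?_⟩
          rintro (⟨_, h6⟩ | ⟨h6, _⟩)
          · subst h6; exact h1.2 ha
          · exact hne h6
        · intro h5
          refine h3 y (mem_insert_self _ _) a ha' ⟨h5, ?_⟩
          rintro (⟨h6, _⟩ | ⟨_, h6⟩)
          · exact hne h6.symm
          · subst h6; exact h1.1 ha
      · intro a ha b hb h5
        refine h3 a (mem_insert_of_mem (mem_insert_of_mem ha)) b
          (mem_insert_of_mem (mem_insert_of_mem hb)) ⟨h5, ?_⟩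
        rintro (⟨h6, _⟩ | ⟨_, h6⟩)
        · subst h6; exact h1.1 ha
        · subst h6; exact h1.1 hb
      · rw [card_insert_of_notMem hyn, card_insert_of_notMem h1.1] at h4
        omega
    have hbu : bd u = 0 := by
      rw [hu, bd_lk, bd_lk, hwz]
      funext ρ
      rw [lk_apply, lk_apply]
      by_cases h1 : x ∈ ρ
      · simp [h1]
      rw [if_neg h1]
      by_cases h2 : y ∈ insert x ρ
      · simp [h2]
      rw [if_neg h2]
      refine eq_zero_of_notMem hz ?_
      rintro ⟨_, h4⟩
      exact h4 x (mem_insert_of_mem (mem_insert_self _ _)) y (mem_insert_self _ _) hxy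
    obtain ⟨u', hu', hbu'⟩ := hex'' u hu_mem hbu
    have hcu : ∀ σ, cone y (cone x u) σ = if x ∈ σ ∧ y ∈ σ then w σ else 0 := by
      intro σ
      rw [cone_apply]
      by_cases h2 : y ∈ σ
      · rw [if_pos h2, cone_apply]
        by_cases h1 : x ∈ σ
        · rw [if_pos (mem_erase.2 ⟨hne, h1⟩), if_pos ⟨h1, h2⟩, hu_apply, if_neg]
          · rw [insert_erase (mem_erase.2 ⟨hne, h1⟩), insert_erase h2]
          · rw [not_or]
            exact ⟨notMem_erase _ _, fun h => notMem_erase _ _ (mem_of_mem_erase h)⟩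
        · rw [if_neg, if_neg]
          · exact fun h => h1 h.1
          · exact fun h => h1 (mem_of_mem_erase h)
      · rw [if_neg h2, if_neg]
        exact fun h => h2 h.2
    have hbc : bd (cone y (cone x u)) = cone x u + cone y u := by
      rw [bd_cone, bd_cone, hbu, map_zero, add_zero]
    refine ⟨w + cone y (cone x u) + (cone x u' + cone y u'), ?_, ?_⟩
    · refine Submodule.add_mem _ ?_ (Submodule.add_mem _ ?_ ?_)
      · intro σ hσ
        rw [Pi.add_apply, hcu] at hσ
        by_cases h1 : x ∈ σ ∧ y ∈ σ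
        · rw [if_pos h1, add_self] at hσ
          exact absurd rfl hσ
        rw [if_neg h1, add_zero] at hσ
        obtain ⟨⟨h2, h3⟩, h4⟩ := hw _ hσ
        refine ⟨⟨h2, fun a ha b hb h5 => h3 a ha b hb ⟨h5, ?_⟩⟩, h4⟩
        rintro (⟨h6, h7⟩ | ⟨h6, h7⟩)
        · subst h6; subst h7; exact h1 ⟨ha, hb⟩
        · subst h6; subst h7; exact h1 ⟨hb, ha⟩
      · refine cone_mem (X := ind R W') ?_ hu'
        rintro ρ ⟨h1, h2⟩ _
        refine ⟨insert_subset hx (h1.trans hW'W), ?_⟩
        intro a ha b hb
        rw [mem_insert] at ha hb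
        rcases ha with rfl | ha
        · rcases hb with rfl | hb
          · exact hirr _
          · exact (mem_filter.1 (h1 hb)).2.1
        · rcases hb with rfl | hb
          · exact fun h => (mem_filter.1 (h1 ha)).2.1 (hsymm _ _ h)
          · exact h2 a ha b hb
      · refine cone_mem (X := ind R W') ?_ hu'
        rintro ρ ⟨h1, h2⟩ _
        refine ⟨insert_subset hy (h1.trans hW'W), ?_⟩
        intro a ha b hb
        rw [mem_insert] at ha hb
        rcases ha with rfl | ha
        · rcases hb with rfl | hb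
          · exact hirr _
          · exact (mem_filter.1 (h1 hb)).2.2
        · rcases hb with rfl | hb
          · exact fun h => (mem_filter.1 (h1 ha)).2.2 (hsymm _ _ h)
          · exact h2 a ha b hb
    · rw [map_add, map_add, map_add, bd_cone x u', bd_cone y u', hbu', hbc, hwz]
      have h1 : ∀ a b c e : Ch E, e + (a + b) + ((c + a) + (c + b)) = e := by
        intro a b c e
        have : e + (a + b) + ((c + a) + (c + b)) = e + (a + a) + (b + b) + (c + c) := by abel
        rw [this, ch_add_self, ch_add_self, ch_add_self, add_zero, add_zero, add_zero]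
      exact h1 _ _ _ _
  · exact exact_of_isolated hx (hirr x) (fun a ha => ⟨fun h => hE ⟨a, ha, h⟩,
      fun h => hE ⟨a, ha, hsymm _ _ h⟩⟩) m


end Pool.Agent.H82.Top
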