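import Pool.Agent.H82.Top.Chain

/-!
# Joins of families on disjoint ground sets

If `X` is exact at all sizes less than `a` and `Y` is exact at all sizes less than `b`, then their
join is exact at all sizes less than `a + b`. The proof uses contracting homotopies.
-/

set_option autoImplicit false

open Finset

namespace Pool.Agent.H82.Top

variable {E : Type*} [Fintype E] [DecidableEq E]

/-! ### Homotopies -/

/-- A contracting homotopy for `X` in sizes less than `a`. -/
structure Hty (A : Finset E) (X : Set (Finset E)) (a : ℕ) (S : Ch E →ₗ[ZMod 2] Ch E) : Prop where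
  sup : ∀ m, ∀ z ∈ chains X m, S z ∈ chains X (m + 1)
  zero : ∀ m, a ≤ m → ∀ z ∈ chains X m, S z = 0
  htpy : ∀ m < a, ∀ z ∈ chains X m, bd (S z) + S (bd z) = z
  sub : ∀ z ρ, S z ρ ≠ 0 → ρ ⊆ A

theorem exists_section {X : Set (Finset E)} {m : ℕ} (h : Exact X m) :
    ∃ s : Ch E →ₗ[ZMod 2] Ch E, ∀ z ∈ chains X m, bd z = 0 → s z ∈ chains X (m + 1) ∧
      bd (s z) = z := by
  let f : chains X (m + 1) →ₗ[ZMod 2] Ch E := bd.comp (chains X (m + 1)).subtype
  obtain ⟨g, hg⟩ := LinearMap.exists_rightInverse_of_surjective f.rangeRestrict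
    (LinearMap.range_rangeRestrict f)
  obtain ⟨g', hg'⟩ := LinearMap.exists_extend g
  refine ⟨(chains X (m + 1)).subtype.comp g', fun z hz hb => ?_⟩
  obtain ⟨w, hw, hwz⟩ := h z hz hb
  have hzr : z ∈ LinearMap.range f := ⟨⟨w, hw⟩, hwz⟩
  refine ⟨(g' z).2, ?_⟩
  have h1 : g' z = g ⟨z, hzr⟩ := by
    rw [← hg']
    rfl
  have h2 : f (g ⟨z, hzr⟩) = z := by
    have h3 := congrArg (fun l => ((l ⟨z, hzr⟩ : LinearMap.range f) : Ch E)) hg
    simpa using h3
  rw [← h1] at h2
  exact h2

open Classical in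
/-- projection to the chains supported on `X` of size `a` -/
noncomputable def prj (X : Set (Finset E)) (a : ℕ) : Ch E →ₗ[ZMod 2] Ch E where
  toFun z := fun σ => if σ ∈ X ∧ σ.card = a then z σ else 0
  map_add' := by
    intro x y; funext τ
    by_cases h : τ ∈ X ∧ τ.card = a <;> simp [h]
  map_smul' := by
    intro c x; funext τ
    by_cases h : τ ∈ X ∧ τ.card = a <;> simp [h]

omit [Fintype E] [DecidableEq E] in
open Classical in
theorem prj_apply (X : Set (Finset E)) (a : ℕ) (z : Ch E) (σ : Finset E) :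
    prj X a z σ = if σ ∈ X ∧ σ.card = a then z σ else 0 := rfl

omit [Fintype E] [DecidableEq E] in
theorem prj_mem (X : Set (Finset E)) (a : ℕ) (z : Ch E) : prj X a z ∈ chains X a := by
  intro σ hσ
  rw [prj_apply] at hσ
  by_contra h
  rw [if_neg h] at hσ
  exact hσ rfl

omit [Fintype E] [DecidableEq E] in
theorem prj_self {X : Set (Finset E)} {a : ℕ} {z : Ch E} (hz : z ∈ chains X a) :
    prj X a z = z := by
  funext σ
  rw [prj_apply]
  by_cases h : σ ∈ X ∧ σ.card = a
  · rw [if_pos h]
  · rw [if_neg h]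
    by_contra h1
    exact h (hz σ (fun h2 => h1 h2.symm))

omit [Fintype E] [DecidableEq E] in
theorem prj_ne {X : Set (Finset E)} {a m : ℕ} (ham : m ≠ a) {z : Ch E} (hz : z ∈ chains X m) :
    prj X a z = 0 := by
  funext σ
  rw [prj_apply]
  by_cases h : σ ∈ X ∧ σ.card = a
  · rw [if_pos h, Pi.zero_apply]
    exact eq_zero_of_card hz (by omega)
  · rw [if_neg h]
    rfl

theorem exists_hty {A : Finset E} {X : Set (Finset E)} (hXA : ∀ σ ∈ X, σ ⊆ A) (hX : IsDown X)
    (a : ℕ) (hex : ∀ m < a, Exact X m) : ∃ S, Hty A X a S := by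
  induction a with
  | zero =>
    exact ⟨0, fun m z _ => Submodule.zero_mem _, fun _ _ _ _ => rfl,
      fun m hm => absurd hm (Nat.not_lt_zero m), fun z ρ h => absurd rfl h⟩
  | succ a ih =>
    obtain ⟨S, hS⟩ := ih fun m hm => hex m (by omega)
    obtain ⟨s, hs⟩ := exists_section (hex a (by omega))
    have hv : ∀ u ∈ chains X a, u + S (bd u) ∈ chains X a ∧ bd (u + S (bd u)) = 0 := by
      intro u hu
      rcases Nat.eq_zero_or_pos a with rfl | ha
      · rw [bd_zero_size hu, map_zero, add_zero, bd_zero_size hu]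
        exact ⟨hu, rfl⟩
      · obtain ⟨b, rfl⟩ : ∃ b, a = b + 1 := ⟨a - 1, by omega⟩
        have h1 := bd_mem hX hu
        refine ⟨Submodule.add_mem _ hu (hS.sup b _ h1), ?_⟩
        have h2 := hS.htpy b (by omega) _ h1
        rw [bd_bd, map_zero, add_zero] at h2
        rw [map_add, h2, ch_add_self]
    have hbdne : ∀ m ≤ a, ∀ z ∈ chains X m, prj X a (bd z) = 0 := by
      intro m hm z hz
      rcases Nat.eq_zero_or_pos m with rfl | hm'
      · rw [bd_zero_size hz, map_zero]
      · obtain ⟨b, rfl⟩ : ∃ b, m = b + 1 := ⟨m - 1, by omega⟩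
        exact prj_ne (by omega) (bd_mem hX hz)
    let S' : Ch E →ₗ[ZMod 2] Ch E := S + s.comp ((prj X a) + (S.comp (bd.comp (prj X a))))
    have hS' : ∀ z, S' z = S z + s (prj X a z + S (bd (prj X a z))) := fun z => rfl
    refine ⟨S', ?_, ?_, ?_, ?_⟩
    · intro m z hz
      rw [hS']
      refine Submodule.add_mem _ (hS.sup m z hz) ?_
      by_cases hma : m = a
      · subst hma
        obtain ⟨h1, h2⟩ := hv _ (prj_mem X m z)
        exact (hs _ h1 h2).1
      · rw [prj_ne hma hz, map_zero, map_zero, add_zero, map_zero]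
        exact Submodule.zero_mem _
    · intro m hm z hz
      rw [hS', prj_ne (by omega) hz, map_zero, map_zero, add_zero, map_zero, add_zero]
      exact hS.zero m (by omega) z hz
    · intro m hm z hz
      rw [hS', hS', hbdne m (by omega) z hz]
      simp only [map_zero, add_zero]
      by_cases hma : m = a
      · subst hma
        rw [prj_self hz, hS.zero m le_rfl z hz, zero_add]
        obtain ⟨h1, h2⟩ := hv z hz
        rw [(hs _ h1 h2).2, add_assoc, ch_add_self, add_zero]
      · rw [prj_ne hma hz, map_zero, map_zero, add_zero, map_zero, add_zero]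
        exact hS.htpy m (by omega) z hz
    · intro z ρ h
      rw [hS', Pi.add_apply] at h
      by_cases h1 : S z ρ = 0
      · rw [h1, zero_add] at h
        obtain ⟨h2, h3⟩ := hv _ (prj_mem X a z)
        exact hXA _ ((hs _ h2 h3).1 ρ h).1
      · exact hS.sub z ρ h1

/-! ### Slices and lifts -/

/-- the slice of a chain -/
def sl (A τ : Finset E) : Ch E →ₗ[ZMod 2] Ch E where
  toFun z := fun ρ => if ρ ⊆ A then z (ρ ∪ τ) else 0
  map_add' := by intro x y; funext ρ; by_cases h : ρ ⊆ A <;> simp [h]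
  map_smul' := by intro c x; funext ρ; by_cases h : ρ ⊆ A <;> simp [h]

omit [Fintype E] in
theorem sl_apply (A τ : Finset E) (z : Ch E) (ρ : Finset E) :
    sl A τ z ρ = if ρ ⊆ A then z (ρ ∪ τ) else 0 := rfl

/-- the operator `S` applied to the `A`-part -/
def lift (A : Finset E) (S : Ch E →ₗ[ZMod 2] Ch E) : Ch E →ₗ[ZMod 2] Ch E where
  toFun z := fun σ => S (sl A (σ \ A) z) (σ ∩ A)
  map_add' := by intro x y; funext ρ; simp
  map_smul' := by intro c x; funext ρ; simp

omit [Fintype E] in
theorem lift_apply (A : Finset E) (S : Ch E →ₗ[ZMod 2] Ch E) (z : Ch E) (σ : Finset E) :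
    lift A S z σ = S (sl A (σ \ A) z) (σ ∩ A) := rfl

/-- the part of the boundary operator that removes elements of `A` -/
def bdA (A : Finset E) (z : Ch E) : Ch E := fun τ => ∑ e ∈ A \ τ, z (insert e τ)

theorem bd_eq (A : Finset E) (z : Ch E) : bd z = bdA A z + bdA Aᶜ z := by
  funext τ
  rw [Pi.add_apply, bd_apply]
  unfold bdA
  rw [← sum_union]
  · refine sum_congr ?_ fun _ _ => rfl
    ext e
    simp only [mem_compl, mem_union, mem_sdiff]
    tauto
  · rw [disjoint_left]
    intro e h1 h2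
    rw [mem_sdiff] at h1 h2
    exact mem_compl.1 h2.1 h1.1

theorem bd_of_sub {A : Finset E} {u : Ch E} (hu : ∀ ρ, u ρ ≠ 0 → ρ ⊆ A) (ρ : Finset E) :
    bd u ρ = ∑ e ∈ A \ ρ, u (insert e ρ) := by
  rw [bd_apply]
  symm
  refine sum_subset ?_ ?_
  · intro e he
    exact mem_compl.2 (mem_sdiff.1 he).2
  · intro e he he'
    by_contra h
    exact he' (mem_sdiff.2 ⟨hu _ h (mem_insert_self _ _), mem_compl.1 he⟩)

theorem sl_bdA (A τ : Finset E) (hτ : Disjoint τ A) (z : Ch E) :
    sl A τ (bdA A z) = bd (sl A τ z) := by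
  funext ρ
  have hsub : ∀ ρ, sl A τ z ρ ≠ 0 → ρ ⊆ A := by
    intro ρ h
    rw [sl_apply] at h
    by_contra h1
    rw [if_neg h1] at h
    exact h rfl
  rw [bd_of_sub hsub, sl_apply]
  by_cases h : ρ ⊆ A
  · rw [if_pos h]
    unfold bdA
    have h1 : A \ (ρ ∪ τ) = A \ ρ := by
      ext e
      simp only [mem_sdiff, mem_union]
      constructor
      · rintro ⟨h2, h3⟩
        exact ⟨h2, fun h4 => h3 (Or.inl h4)⟩
      · rintro ⟨h2, h3⟩
        refine ⟨h2, ?_⟩
        rintro (h4 | h4)
        · exact h3 h4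
        · exact disjoint_left.1 hτ h4 h2
    rw [h1]
    refine sum_congr rfl fun e he => ?_
    rw [sl_apply, if_pos (insert_subset (mem_sdiff.1 he).1 h), insert_union]
  · rw [if_neg h]
    symm
    refine sum_eq_zero fun e _ => ?_
    rw [sl_apply, if_neg]
    exact fun h1 => h ((subset_insert _ _).trans h1)

theorem sl_bdA_compl (A τ : Finset E) (z : Ch E) :
    sl A τ (bdA Aᶜ z) = ∑ e ∈ Aᶜ \ τ, sl A (insert e τ) z := by
  funext ρ
  rw [sl_apply, Finset.sum_apply]
  by_cases h : ρ ⊆ A
  · rw [if_pos h]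
    unfold bdA
    have h1 : Aᶜ \ (ρ ∪ τ) = Aᶜ \ τ := by
      ext e
      simp only [mem_sdiff, mem_union, mem_compl]
      constructor
      · rintro ⟨h2, h3⟩
        exact ⟨h2, fun h4 => h3 (Or.inr h4)⟩
      · rintro ⟨h2, h3⟩
        refine ⟨h2, ?_⟩
        rintro (h4 | h4)
        · exact h2 (h h4)
        · exact h3 h4
    rw [h1]
    refine sum_congr rfl fun e _ => ?_
    rw [sl_apply, if_pos h, union_insert]
  · rw [if_neg h]
    symm
    refine sum_eq_zero fun e _ => ?_
    rw [sl_apply, if_neg h]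

theorem bdA_compl_lift (A : Finset E) (S : Ch E →ₗ[ZMod 2] Ch E) (z : Ch E) :
    bdA Aᶜ (lift A S z) = lift A S (bdA Aᶜ z) := by
  funext σ
  rw [lift_apply, sl_bdA_compl, map_sum, Finset.sum_apply]
  unfold bdA
  have h1 : Aᶜ \ (σ \ A) = Aᶜ \ σ := by
    ext e
    simp only [mem_sdiff, mem_compl]
    tauto
  rw [h1]
  refine sum_congr rfl fun e he => ?_
  rw [mem_sdiff, mem_compl] at he
  rw [lift_apply, insert_sdiff_of_notMem _ he.1, insert_inter_of_notMem he.1]

theorem bdA_lift {A : Finset E} {S : Ch E →ₗ[ZMod 2] Ch E} (hS : ∀ z ρ, S z ρ ≠ 0 → ρ ⊆ A)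
    (z : Ch E) : bdA A (lift A S z) = lift A (bd.comp S) z := by
  funext σ
  rw [lift_apply, LinearMap.comp_apply, bd_of_sub (hS _)]
  unfold bdA
  have h1 : A \ (σ ∩ A) = A \ σ := by
    ext e
    simp only [mem_sdiff, mem_inter]
    tauto
  rw [h1]
  refine sum_congr rfl fun e he => ?_
  rw [mem_sdiff] at he
  rw [lift_apply, insert_sdiff_of_mem _ he.1, insert_inter_of_mem he.1]

theorem lift_bdA (A : Finset E) (S : Ch E →ₗ[ZMod 2] Ch E) (z : Ch E) :
    lift A S (bdA A z) = lift A (S.comp bd) z := by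
  funext σ
  rw [lift_apply, lift_apply, LinearMap.comp_apply, sl_bdA _ _ sdiff_disjoint]

theorem bd_lift {A : Finset E} {S : Ch E →ₗ[ZMod 2] Ch E} (hS : ∀ z ρ, S z ρ ≠ 0 → ρ ⊆ A)
    {z : Ch E} (hz : bd z = 0) :
    bd (lift A S z) = lift A (bd.comp S) z + lift A (S.comp bd) z := by
  have h1 : bdA A z = bdA Aᶜ z := by
    rw [bd_eq A] at hz
    exact eq_of_add_eq_zero' hz
  rw [bd_eq A, bdA_lift hS, bdA_compl_lift, ← h1, lift_bdA]

/-! ### Joins -/

/-- the join of families `X` on `A` and `Y` on the complement of `A` -/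
def joinF (A : Finset E) (X Y : Set (Finset E)) : Set (Finset E) :=
  {σ | σ ∩ A ∈ X ∧ σ \ A ∈ Y}

theorem joinF_compl (A : Finset E) (X Y : Set (Finset E)) : joinF Aᶜ Y X = joinF A X Y := by
  ext σ
  unfold joinF
  simp only [Set.mem_setOf_eq]
  rw [sdiff_compl, inf_eq_inter, and_comm, ← sdiff_eq_inter_compl]

theorem card_split (A σ : Finset E) : (σ ∩ A).card + (σ \ A).card = σ.card := by
  rw [inter_comm]
  have := card_sdiff_add_card_inter σ A
  rw [inter_comm] at this
  omega

theorem sl_mem {A : Finset E} {X Y : Set (Finset E)} {m : ℕ} {z : Ch E}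
    (hz : z ∈ chains (joinF A X Y) m) {τ : Finset E} (hτ : Disjoint τ A) {n : ℕ}
    (hn : n + τ.card = m) : sl A τ z ∈ chains X n := by
  intro ρ hρ
  rw [sl_apply] at hρ
  by_cases h : ρ ⊆ A
  · rw [if_pos h] at hρ
    obtain ⟨⟨h1, _⟩, h2⟩ := hz _ hρ
    have h3 : (ρ ∪ τ) ∩ A = ρ := by
      rw [union_inter_distrib_right, inter_eq_left.2 h, disjoint_iff_inter_eq_empty.1 hτ,
        union_empty]
    rw [h3] at h1
    refine ⟨h1, ?_⟩
    have h4 : Disjoint ρ τ := by
      rw [disjoint_left]
      intro e he he'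
      exact disjoint_left.1 hτ he' (h he)
    rw [card_union_of_disjoint h4] at h2
    omega
  · rw [if_neg h] at hρ
    exact absurd rfl hρ

theorem sl_zero {A : Finset E} {X Y : Set (Finset E)} {m : ℕ} {z : Ch E}
    (hz : z ∈ chains (joinF A X Y) m) {τ : Finset E} (hτ : Disjoint τ A)
    (hn : m < τ.card ∨ τ ∉ Y) : sl A τ z = 0 := by
  funext ρ
  rw [sl_apply]
  by_cases h : ρ ⊆ A
  · rw [if_pos h, Pi.zero_apply]
    by_contra h0
    obtain ⟨⟨_, h1⟩, h2⟩ := hz _ h0
    have h3 : (ρ ∪ τ) \ A = τ := by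
      rw [union_sdiff_distrib, sdiff_eq_empty_iff_subset.2 h, empty_union,
        sdiff_eq_self_of_disjoint hτ]
    rw [h3] at h1
    rcases hn with hn | hn
    · have h4 := card_le_card (subset_union_right : τ ⊆ ρ ∪ τ)
      omega
    · exact hn h1
  · rw [if_neg h]
    rfl

theorem lift_mem {A : Finset E} {X Y : Set (Finset E)} {a : ℕ} {S : Ch E →ₗ[ZMod 2] Ch E}
    (hS : Hty A X a S) {m : ℕ} {z : Ch E} (hz : z ∈ chains (joinF A X Y) m) :
    lift A S z ∈ chains (joinF A X Y) (m + 1) := by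
  intro σ hσ
  rw [lift_apply] at hσ
  have hdisj : Disjoint (σ \ A) A := sdiff_disjoint
  by_cases h1 : m < (σ \ A).card ∨ σ \ A ∉ Y
  · rw [sl_zero hz hdisj h1, map_zero] at hσ
    exact absurd rfl hσ
  rw [not_or, not_lt, not_not] at h1
  obtain ⟨n, hn⟩ : ∃ n, n + (σ \ A).card = m := ⟨m - (σ \ A).card, by omega⟩
  obtain ⟨h2, h3⟩ := hS.sup n _ (sl_mem hz hdisj hn) _ hσ
  refine ⟨⟨h2, h1.2⟩, ?_⟩
  have := card_split A σ
  omega

/-- the first reduction -/
theorem reduce {A : Finset E} {X Y : Set (Finset E)} {a : ℕ} {S : Ch E →ₗ[ZMod 2] Ch E}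
    (hS : Hty A X a S) {m : ℕ} {z : Ch E} (hz : z ∈ chains (joinF A X Y) m) (hb : bd z = 0)
    {σ : Finset E} (hσ : m < a + (σ \ A).card) : (z + bd (lift A S z)) σ = 0 := by
  rw [bd_lift hS.sub hb, Pi.add_apply, Pi.add_apply, lift_apply, lift_apply]
  have hdisj : Disjoint (σ \ A) A := sdiff_disjoint
  have h1 : z σ = sl A (σ \ A) z (σ ∩ A) := by
    rw [sl_apply, if_pos inter_subset_right, inter_comm, union_comm, inter_comm]
    congr 1
    exact (sdiff_union_inter σ A).symm
  rw [h1, ← Pi.add_apply, ← Pi.add_apply, LinearMap.comp_apply, LinearMap.comp_apply]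
  by_cases h2 : m < (σ \ A).card
  · rw [sl_zero hz hdisj (Or.inl h2)]
    simp
  · obtain ⟨n, hn⟩ : ∃ n, n + (σ \ A).card = m := ⟨m - (σ \ A).card, by omega⟩
    rw [hS.htpy n (by omega) _ (sl_mem hz hdisj hn), ch_add_self]
    rfl

theorem exact_join {A : Finset E} {X Y : Set (Finset E)} (hXA : ∀ σ ∈ X, σ ⊆ A)
    (hYA : ∀ σ ∈ Y, σ ⊆ Aᶜ) (hX : IsDown X) (hY : IsDown Y) {a b : ℕ}
    (hexX : ∀ m < a, Exact X m) (hexY : ∀ m < b, Exact Y m) {m : ℕ} (hm : m < a + b) :
    Exact (joinF A X Y) m := by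
  obtain ⟨S, hS⟩ := exists_hty hXA hX a hexX
  obtain ⟨S2, hS2⟩ := exists_hty hYA hY b hexY
  intro z hz hb
  set z' : Ch E := z + bd (lift A S z) with hz'
  have hdown : IsDown (joinF A X Y) := by
    rintro σ ⟨h1, h2⟩ τ hτ
    exact ⟨hX _ h1 _ (inter_subset_inter_right hτ), hY _ h2 _ (sdiff_subset_sdiff hτ le_rfl)⟩
  have hz'mem : z' ∈ chains (joinF A X Y) m :=
    Submodule.add_mem _ hz (bd_mem hdown (lift_mem hS hz))
  have hbz' : bd z' = 0 := by
    rw [hz', map_add, hb, bd_bd, add_zero]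
  have hsupp : ∀ σ, z' σ ≠ 0 → a ≤ (σ ∩ A).card := by
    intro σ h
    by_contra h1
    apply h
    have h2 := (hz'mem σ h).2
    have h3 := card_split A σ
    exact reduce hS hz hb (by omega)
  have hz'mem' : z' ∈ chains (joinF Aᶜ Y X) m := by
    rw [joinF_compl]
    exact hz'mem
  have hzero : z' + bd (lift Aᶜ S2 z') = 0 := by
    funext σ
    by_cases h1 : a ≤ (σ ∩ A).card
    · refine reduce hS2 hz'mem' hbz' ?_
      have h2 : σ \ Aᶜ = σ ∩ A := by rw [sdiff_compl, inf_eq_inter]
      rw [h2]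
      omega
    · rw [bd_lift hS2.sub hbz', Pi.add_apply, Pi.add_apply, lift_apply, lift_apply]
      have h2 : σ \ Aᶜ = σ ∩ A := by rw [sdiff_compl, inf_eq_inter]
      have h3 : sl Aᶜ (σ \ Aᶜ) z' = 0 := by
        funext ρ
        rw [sl_apply]
        by_cases h4 : ρ ⊆ Aᶜ
        · rw [if_pos h4, Pi.zero_apply]
          by_contra h5
          have h6 := hsupp _ h5
          rw [h2] at h6
          have h7 : (ρ ∪ σ ∩ A) ∩ A = σ ∩ A := by
            ext e
            simp only [mem_inter, mem_union]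
            constructor
            · rintro ⟨h8 | h8, h9⟩
              · exact absurd h9 (mem_compl.1 (h4 h8))
              · exact h8
            · intro h8
              exact ⟨Or.inr h8, h8.2⟩
          rw [h7] at h6
          exact h1 h6
        · rw [if_neg h4]
          rfl
      rw [h3]
      simp only [map_zero, Pi.zero_apply, add_zero]
      by_contra h4
      exact h1 (hsupp σ h4)
  refine ⟨lift A S z + lift Aᶜ S2 z', Submodule.add_mem _ (lift_mem hS hz) ?_, ?_⟩
  · have h1 := lift_mem hS2 hz'mem'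
    rw [joinF_compl] at h1
    exact h1
  · have h1 : bd (lift Aᶜ S2 z') = z' := (eq_of_add_eq_zero' hzero).symm
    rw [map_add, h1, hz']
    have h2 : bd (lift A S z) + (z + bd (lift A S z)) =
      z + (bd (lift A S z) + bd (lift A S z)) := by abel
    rw [h2, ch_add_self, add_zero]

/-! ### Joins of many families -/

variable {C : Type*} [DecidableEq C]

/-- the join of the families `F c`, `c ∈ K` -/
def multi (κ : E → C) (F : C → Set (Finset E)) (K : Finset C) : Set (Finset E) :=
  {σ | (∀ e ∈ σ, κ e ∈ K) ∧ ∀ c ∈ K, σ.filter (fun e => κ e = c) ∈ F c}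

omit [Fintype E] [DecidableEq E] in
theorem multi_down {κ : E → C} {F : C → Set (Finset E)} (hF : ∀ c, IsDown (F c)) (K : Finset C) :
    IsDown (multi κ F K) := by
  rintro σ ⟨h1, h2⟩ τ hτ
  exact ⟨fun e he => h1 e (hτ he), fun c hc => hF c _ (h2 c hc) _ (filter_subset_filter _ hτ)⟩

theorem exact_multi {κ : E → C} {F : C → Set (Finset E)} (hF : ∀ c, IsDown (F c))
    (hκ : ∀ c, ∀ σ ∈ F c, ∀ e ∈ σ, κ e = c) (h : C → ℕ) (K : Finset C)
    (hex : ∀ c ∈ K, ∀ m < h c, Exact (F c) m) :
    ∀ m < ∑ c ∈ K, h c, Exact (multi κ F K) m := by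
  induction K using Finset.induction_on with
  | empty => intro m hm; simp at hm
  | insert c K hc ih =>
    intro m hm
    rw [sum_insert hc] at hm
    set A : Finset E := univ.filter (fun e => κ e = c) with hA
    have h1 : multi κ F (insert c K) = joinF A (F c) (multi κ F K) := by
      ext σ
      have h2 : σ ∩ A = σ.filter (fun e => κ e = c) := by
        ext e; simp [hA]
      unfold multi joinF
      simp only [Set.mem_setOf_eq]
      rw [h2]
      constructor
      · rintro ⟨h3, h4⟩
        refine ⟨h4 c (mem_insert_self _ _), ?_, ?_⟩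
        · intro e he
          rw [mem_sdiff] at he
          have h5 := h3 e he.1
          rw [mem_insert] at h5
          rcases h5 with h5 | h5
          · exact absurd (show e ∈ A from mem_filter.2 ⟨mem_univ _, h5⟩) he.2
          · exact h5
        · intro c' hc'
          have h6 : (σ \ A).filter (fun e => κ e = c') = σ.filter (fun e => κ e = c') := by
            ext e
            simp only [hA, mem_filter, mem_sdiff, mem_univ, true_and]
            constructor
            · rintro ⟨⟨h7, _⟩, h8⟩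
              exact ⟨h7, h8⟩
            · rintro ⟨h7, h8⟩
              refine ⟨⟨h7, fun h9 => hc ?_⟩, h8⟩
              rw [← h9, h8]
              exact hc'
          rw [h6]
          exact h4 c' (mem_insert_of_mem hc')
      · rintro ⟨h3, h4, h5⟩
        refine ⟨?_, ?_⟩
        · intro e he
          by_cases h6 : κ e = c
          · exact mem_insert.2 (Or.inl h6)
          · exact mem_insert_of_mem (h4 e (mem_sdiff.2 ⟨he, by simp [hA, h6]⟩))
        · intro c' hc'
          rw [mem_insert] at hc'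
          rcases hc' with rfl | hc'
          · exact h3
          · have h6 : (σ \ A).filter (fun e => κ e = c') = σ.filter (fun e => κ e = c') := by
              ext e
              simp only [hA, mem_filter, mem_sdiff, mem_univ, true_and]
              constructor
              · rintro ⟨⟨h7, _⟩, h8⟩
                exact ⟨h7, h8⟩
              · rintro ⟨h7, h8⟩
                refine ⟨⟨h7, fun h9 => hc ?_⟩, h8⟩
                rw [← h9, h8]
                exact hc'
            rw [← h6]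
            exact h5 c' hc'
    rw [h1]
    refine exact_join ?_ ?_ (hF c) (multi_down hF K) (hex c (mem_insert_self _ _))
      (ih fun c' hc' => hex c' (mem_insert_of_mem hc')) hm
    · intro σ hσ e he
      exact mem_filter.2 ⟨mem_univ _, hκ c σ hσ e he⟩
    · intro σ hσ e he
      rw [mem_compl]
      intro h2
      have h3 := hσ.1 e he
      rw [(mem_filter.1 h2).2] at h3
      exact hc h3

end Pool.Agent.H82.Top
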