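import Pool.Agent.H82.Top.Indep
import Pool.Agent.H82.Top.Join
import Pool.Agent.H82.Top.Hall

/-!
# Proportional list colourings from exactness of independence complexes

If the independence complex of every induced subgraph of `G` with more than `k m` vertices is exact
at size `m`, for all `m`, then `G` has a proportional `L`-colouring for all lists `L` of size `k`.
-/

set_option autoImplicit false

open Finset

namespace Pool.Agent.H82.Top

variable {V C : Type*}

/-- conflicts between the pairs (vertex or dummy, colour) -/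
def conf (G : SimpleGraph V) (D C : Type*) (a b : (V ⊕ D) × C) : Prop :=
  a.2 = b.2 ∧ match a.1, b.1 with
    | .inl u, .inl v => G.Adj u v
    | .inr d, .inr d' => d ≠ d'
    | .inl _, .inr _ => False
    | .inr _, .inl _ => False

theorem conf_symm (G : SimpleGraph V) (D C : Type*) (a b : (V ⊕ D) × C)
    (h : conf G D C a b) : conf G D C b a := by
  obtain ⟨a1, a2⟩ := a
  obtain ⟨b1, b2⟩ := b
  refine ⟨h.1.symm, ?_⟩
  have h2 := h.2
  rcases a1 with u | d <;> rcases b1 with v | d'
  · exact (show G.Adj u v from h2).symm
  · exact h2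
  · exact h2
  · exact fun h3 => h2 h3.symm

theorem conf_irr (G : SimpleGraph V) (D C : Type*) (a : (V ⊕ D) × C) : ¬ conf G D C a a := by
  obtain ⟨a1, a2⟩ := a
  rintro ⟨_, h2⟩
  rcases a1 with u | d
  · exact G.loopless.irrefl u h2
  · exact h2 rfl

theorem conf_inl {G : SimpleGraph V} {D C : Type*} {u v : V} {c : C}  :
    conf G D C (Sum.inl u, c) (Sum.inl v, c) ↔ G.Adj u v :=
  ⟨fun h => h.2, fun h => ⟨rfl, h⟩⟩

variable [Fintype V] [DecidableEq V] [Fintype C] [DecidableEq C]

theorem ceil_lt {w k m : ℕ} (hk : 1 ≤ k) (h : m < (w + k - 1) / k) : k * m < w := by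
  have h1 : (m + 1) * k ≤ w + k - 1 := (Nat.le_div_iff_mul_le (by omega)).1 h
  have h2 : (m + 1) * k = k * m + k := by ring
  omega

theorem le_mul_ceil (w : ℕ) {k : ℕ} (hk : 1 ≤ k) : w ≤ k * ((w + k - 1) / k) := by
  have h1 := Nat.div_add_mod (w + k - 1) k
  have h2 := Nat.mod_lt (w + k - 1) (show 0 < k by omega)
  omega

theorem mul_ceil_lt (w : ℕ) {k : ℕ} (hk : 1 ≤ k) : k * ((w + k - 1) / k) < w + k := by
  have h1 := Nat.div_add_mod (w + k - 1) k
  omega

theorem prop_main (G : SimpleGraph V) {k : ℕ} (hk : 1 ≤ k) (L : V → Finset C)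
    (hL : ∀ v, (L v).card = k)
    (hG : ∀ (n : ℕ) (c : C) (U : Finset V) (m : ℕ), k * m < U.card →
      Exact (ind (conf G (Fin n) C) (U.image (fun v => ((Sum.inl v : V ⊕ Fin n), c)))) m) :
    ∃ f : V → C, (∀ v, f v ∈ L v) ∧ (∀ u v, G.Adj u v → f u ≠ f v) ∧
      ∀ c : C, (univ.filter (fun v => c ∈ L v)).card / k ≤ (univ.filter (fun v => f v = c)).card ∧
        (univ.filter (fun v => f v = c)).card ≤
          ((univ.filter (fun v => c ∈ L v)).card + k - 1) / k := by
  classical
  set η : C → ℕ := fun c => (univ.filter (fun v => c ∈ L v)).card with hη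
  set t : C → ℕ := fun c => (η c + k - 1) / k with ht
  set M : ℕ := ∑ c, t c with hM
  -- double counting
  have hdc : ∀ U : Finset V, ∑ c, (U.filter (fun v => c ∈ L v)).card = k * U.card := by
    intro U
    have h1 : ∀ c, (U.filter (fun v => c ∈ L v)).card = ∑ v ∈ U, if c ∈ L v then 1 else 0 := by
      intro c
      rw [card_filter]
    rw [sum_congr rfl fun c _ => h1 c, sum_comm]
    have h2 : ∀ v ∈ U, (∑ c, if c ∈ L v then 1 else 0) = k := by
      intro v _
      rw [← card_filter, filter_univ_mem, hL]
    rw [sum_congr rfl h2, sum_const, smul_eq_mul, mul_comm]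
  have hηsum : ∑ c, η c = k * Fintype.card V := hdc univ
  have hkt : ∀ c, η c ≤ k * t c := fun c => le_mul_ceil _ hk
  have hkt' : ∀ c, k * t c < η c + k := fun c => mul_ceil_lt _ hk
  have hMV : Fintype.card V ≤ M := by
    have h1 : k * Fintype.card V ≤ k * M := by
      rw [← hηsum, hM, mul_sum]
      exact sum_le_sum fun c _ => hkt c
    exact Nat.le_of_mul_le_mul_left h1 (by omega)
  obtain ⟨N, hN⟩ : ∃ N, M = Fintype.card V + N := ⟨M - Fintype.card V, by omega⟩
  let ok : (V ⊕ Fin N) × C → Prop := fun e => match e.1 with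
    | .inl v => e.2 ∈ L v
    | .inr _ => ¬ k ∣ η e.2
  let R := conf G (Fin N) C
  let F : C → Set (Finset ((V ⊕ Fin N) × C)) := fun c =>
    {σ | (∀ e ∈ σ, e.2 = c ∧ ok e) ∧ (∀ a ∈ σ, ∀ b ∈ σ, ¬ R a b) ∧ σ.card ≤ t c}
  let X : Set (Finset ((V ⊕ Fin N) × C)) := multi Prod.snd F univ
  have hempX : (∅ : Finset ((V ⊕ Fin N) × C)) ∈ X := by
    refine ⟨fun e he => absurd he (notMem_empty e), fun c _ => ?_⟩
    rw [filter_empty]
    exact ⟨fun e he => absurd he (notMem_empty e), fun e he => absurd he (notMem_empty e),
      by simp⟩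
  -- the exactness hypothesis
  have hexact : ∀ J : Finset (V ⊕ Fin N), J.Nonempty → Exact (restr Prod.fst X J) (J.card - 1) := by
    intro J hJ
    set U : Finset V := univ.filter (fun v => Sum.inl v ∈ J) with hU
    set D' : Finset (Fin N) := univ.filter (fun d => Sum.inr d ∈ J) with hD'
    have hJcard : J.card = U.card + D'.card := by
      have h1 : J = U.map ⟨Sum.inl, Sum.inl_injective⟩ ∪ D'.map ⟨Sum.inr, Sum.inr_injective⟩ := by
        ext x
        rcases x with v | d <;> simp [hU, hD']
      have h2 : Disjoint (U.map ⟨Sum.inl, Sum.inl_injective⟩ : Finset (V ⊕ Fin N))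
          (D'.map ⟨Sum.inr, Sum.inr_injective⟩) := by
        rw [disjoint_left]
        intro x hx hx'
        simp only [mem_map, Function.Embedding.coeFn_mk] at hx hx'
        obtain ⟨v, _, rfl⟩ := hx
        obtain ⟨d, _, h⟩ := hx'
        exact absurd h (by simp)
      conv_lhs => rw [h1]
      rw [card_union_of_disjoint h2, card_map, card_map]
    let w : C → ℕ := fun c => (U.filter (fun v => c ∈ L v)).card
    let b : C → ℕ := fun c => if D'.Nonempty ∧ ¬ k ∣ η c then 1 else 0
    let h : C → ℕ := fun c => min (t c) ((w c + k - 1) / k + b c)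
    let FJ : C → Set (Finset ((V ⊕ Fin N) × C)) := fun c =>
      {σ | σ ∈ F c ∧ ∀ e ∈ σ, e.1 ∈ J}
    have hrestr : restr Prod.fst X J = multi Prod.snd FJ univ := by
      ext σ
      constructor
      · rintro ⟨⟨h1, h2⟩, h3⟩
        exact ⟨h1, fun c hc => ⟨h2 c hc, fun e he => h3 e (mem_filter.1 he).1⟩⟩
      · rintro ⟨h1, h2⟩
        refine ⟨⟨h1, fun c hc => (h2 c hc).1⟩, fun e he => ?_⟩
        exact (h2 e.2 (mem_univ _)).2 e (mem_filter.2 ⟨he, rfl⟩)
    rw [hrestr]
    have hwη : ∀ c, w c ≤ η c := fun c =>
      card_le_card (filter_subset_filter _ (subset_univ _))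
    -- numerical condition
    have hsum : J.card ≤ ∑ c, h c := by
      have h1 : ∀ c, w c + (if D'.Nonempty then k * t c - η c else 0) ≤ k * h c := by
        intro c
        have h2 := hkt c
        have h3 := hkt' c
        have h4 := hwη c
        have h5 := le_mul_ceil (w c) hk
        have h6 : k * h c = min (k * t c) (k * ((w c + k - 1) / k + b c)) := by
          exact Nat.mul_min_mul_left _ _ _ |>.symm
        rw [h6]
        refine le_min ?_ ?_
        · split_ifs <;> omega
        · rw [mul_add]
          by_cases hD : D'.Nonempty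
          · rw [if_pos hD]
            by_cases hdiv : k ∣ η c
            · have h7 : k * t c = η c := by
                obtain ⟨q, hq⟩ := hdiv
                have h8 : k * t c < k * (q + 1) := by
                  rw [mul_add, ← hq, mul_one]
                  exact h3
                have h9 : t c < q + 1 := Nat.lt_of_mul_lt_mul_left h8
                have h10 : k * t c ≤ k * q := Nat.mul_le_mul_left k (by omega)
                omega
              omega
            · have h7 : b c = 1 := if_pos ⟨hD, hdiv⟩
              rw [h7]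
              omega
          · rw [if_neg hD]
            omega
      have h2 : k * J.card ≤ k * ∑ c, h c := by
        rw [mul_sum]
        refine le_trans ?_ (sum_le_sum fun c _ => h1 c)
        rw [sum_add_distrib]
        have h3 : ∑ c, w c = k * U.card := hdc U
        rw [h3, hJcard, mul_add]
        refine Nat.add_le_add_left ?_ _
        by_cases hD : D'.Nonempty
        · simp only [if_pos hD]
          have h4 : ∑ c, (k * t c - η c) + ∑ c, η c = ∑ c, k * t c := by
            rw [← sum_add_distrib]
            refine sum_congr rfl fun c _ => ?_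
            have := hkt c
            omega
          rw [hηsum, ← mul_sum, ← hM, hN, mul_add] at h4
          have h5 : D'.card ≤ N := by
            have := card_le_univ D'
            rwa [Fintype.card_fin] at this
          have h6 := Nat.mul_le_mul_left k h5
          omega
        · rw [not_nonempty_iff_eq_empty] at hD
          rw [hD]
          simp
      exact Nat.le_of_mul_le_mul_left h2 (by omega)
    have hJpos : 0 < J.card := card_pos.2 hJ
    refine exact_multi ?_ ?_ h univ ?_ _ (by omega)
    · -- down-closed
      rintro c σ ⟨⟨h1, h2, h3⟩, h4⟩ τ hτ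
      exact ⟨⟨fun e he => h1 e (hτ he), fun x hx y hy => h2 x (hτ hx) y (hτ hy),
        (card_le_card hτ).trans h3⟩, fun e he => h4 e (hτ he)⟩
    · rintro c σ ⟨⟨h1, _⟩, _⟩ e he
      exact (h1 e he).1
    · intro c _ m hm
      have hm1 : m < t c := lt_of_lt_of_le hm (min_le_left _ _)
      have hm2 : m < (w c + k - 1) / k + b c := lt_of_lt_of_le hm (min_le_right _ _)
      -- the two ground sets
      set WV : Finset ((V ⊕ Fin N) × C) :=
        (U.filter (fun v => c ∈ L v)).image (fun v => (Sum.inl v, c)) with hWV
      set WD : Finset ((V ⊕ Fin N) × C) :=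
        if k ∣ η c then ∅ else D'.image (fun d => (Sum.inr d, c)) with hWD
      set A : Finset ((V ⊕ Fin N) × C) := univ.filter (fun e => e.1.isLeft = true) with hA
      have hWVA : WV ⊆ A := by
        intro e he
        rw [hWV, mem_image] at he
        obtain ⟨v, _, rfl⟩ := he
        simp [hA]
      have hWDA : WD ⊆ Aᶜ := by
        intro e he
        rw [hWD] at he
        by_cases hdiv : k ∣ η c
        · rw [if_pos hdiv] at he
          exact absurd he (notMem_empty e)
        · rw [if_neg hdiv, mem_image] at he
          obtain ⟨d, _, rfl⟩ := he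
          simp [hA]
      have hFJ : FJ c = trunc (joinF A (ind R WV) (ind R WD)) (t c) := by
        ext σ
        constructor
        · rintro ⟨⟨h1, h2, h3⟩, h4⟩
          refine ⟨⟨⟨?_, ?_⟩, ?_, ?_⟩, h3⟩
          · intro e he
            rw [mem_inter] at he
            obtain ⟨h5, h6⟩ := h1 e he.1
            have h7 := h4 e he.1
            obtain ⟨e1, e2⟩ := e
            rcases e1 with v | d
            · simp only at h5
              subst h5
              rw [hWV, mem_image]
              exact ⟨v, mem_filter.2 ⟨mem_filter.2 ⟨mem_univ _, h7⟩, h6⟩, rfl⟩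
            · simp [hA] at he
          · intro x hx y hy
            exact h2 x (mem_inter.1 hx).1 y (mem_inter.1 hy).1
          · intro e he
            rw [mem_sdiff] at he
            obtain ⟨h5, h6⟩ := h1 e he.1
            have h7 := h4 e he.1
            obtain ⟨e1, e2⟩ := e
            rcases e1 with v | d
            · simp [hA] at he
            · simp only at h5
              subst h5
              have h8 : ¬ k ∣ η e2 := h6
              rw [hWD, if_neg h8, mem_image]
              exact ⟨d, mem_filter.2 ⟨mem_univ _, h7⟩, rfl⟩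
          · intro x hx y hy
            exact h2 x (mem_sdiff.1 hx).1 y (mem_sdiff.1 hy).1
        · rintro ⟨⟨⟨h1, h2⟩, h3, h4⟩, h5⟩
          have h6 : ∀ e ∈ σ, (e ∈ A ∧ e ∈ WV) ∨ (e ∉ A ∧ e ∈ WD) := by
            intro e he
            by_cases h7 : e ∈ A
            · exact Or.inl ⟨h7, h1 (mem_inter.2 ⟨he, h7⟩)⟩
            · exact Or.inr ⟨h7, h3 (mem_sdiff.2 ⟨he, h7⟩)⟩
          have h7 : ∀ e ∈ σ, (e.2 = c ∧ ok e) ∧ e.1 ∈ J := by
            intro e he
            rcases h6 e he with ⟨_, h8⟩ | ⟨_, h8⟩
            · rw [hWV, mem_image] at h8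
              obtain ⟨v, hv, rfl⟩ := h8
              rw [mem_filter] at hv
              exact ⟨⟨rfl, hv.2⟩, (mem_filter.1 hv.1).2⟩
            · rw [hWD] at h8
              by_cases hdiv : k ∣ η c
              · rw [if_pos hdiv] at h8
                exact absurd h8 (notMem_empty e)
              · rw [if_neg hdiv, mem_image] at h8
                obtain ⟨d, hd, rfl⟩ := h8
                exact ⟨⟨rfl, hdiv⟩, (mem_filter.1 hd).2⟩
          refine ⟨⟨fun e he => (h7 e he).1, ?_, h5⟩, fun e he => (h7 e he).2⟩
          intro x hx y hy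
          by_cases hxA : x ∈ A
          · by_cases hyA : y ∈ A
            · exact h2 x (mem_inter.2 ⟨hx, hxA⟩) y (mem_inter.2 ⟨hy, hyA⟩)
            · rintro ⟨_, h8⟩
              obtain ⟨x1, x2⟩ := x
              obtain ⟨y1, y2⟩ := y
              rcases x1 with u | d
              · rcases y1 with v | d'
                · simp [hA] at hyA
                · exact h8
              · simp [hA] at hxA
          · by_cases hyA : y ∈ A
            · rintro ⟨_, h8⟩
              obtain ⟨x1, x2⟩ := x
              obtain ⟨y1, y2⟩ := y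
              rcases x1 with u | d
              · simp [hA] at hxA
              · rcases y1 with v | d'
                · exact h8
                · simp [hA] at hyA
            · exact h4 x (mem_sdiff.2 ⟨hx, hxA⟩) y (mem_sdiff.2 ⟨hy, hyA⟩)
      rw [hFJ]
      refine exact_trunc ?_ hm1
      refine exact_join (a := (w c + k - 1) / k) (b := b c) ?_ ?_ (ind_down R WV) (ind_down R WD)
        ?_ ?_ hm2
      · exact fun σ hσ => hσ.1.trans hWVA
      · exact fun σ hσ => hσ.1.trans hWDA
      · intro m' hm'
        exact hG N c _ m' (ceil_lt hk hm')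
      · intro m' hm'
        by_cases hb : D'.Nonempty ∧ ¬ k ∣ η c
        · have h1 : b c = 1 := if_pos hb
          obtain rfl : m' = 0 := by omega
          obtain ⟨d, hd⟩ := hb.1
          refine exact_zero (v := (Sum.inr d, c)) ⟨?_, ?_⟩
          · rw [singleton_subset_iff, hWD, if_neg hb.2, mem_image]
            exact ⟨d, hd, rfl⟩
          · intro x hx y hy
            rw [mem_singleton] at hx hy
            subst hx; subst hy
            exact conf_irr _ _ _ _
        · have h1 : b c = 0 := if_neg hb
          omega
  obtain ⟨σ, hσX, hσ⟩ := hall Prod.fst hempX hexact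
  obtain ⟨_, hσF⟩ := hσX
  -- the colouring of all parts
  choose g hg hguniq using hσ
  have hg1 : ∀ i, (g i).1 = i := fun i => (hg i).2
  have hgσ : ∀ i, g i ∈ σ := fun i => (hg i).1
  have hgF : ∀ i, g i ∈ σ.filter (fun e => e.2 = (g i).2) := fun i =>
    mem_filter.2 ⟨hgσ i, rfl⟩
  have hσg : ∀ e ∈ σ, g e.1 = e := fun e he => (hguniq e.1 e ⟨he, rfl⟩).symm
  refine ⟨fun v => (g (Sum.inl v)).2, ?_, ?_, ?_⟩
  · intro v
    have h1 := ((hσF (g (Sum.inl v)).2 (mem_univ _)).1 _ (hgF (Sum.inl v))).2
    have h2 := hg1 (Sum.inl v)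
    change (match (g (Sum.inl v)).1 with
      | .inl v' => (g (Sum.inl v)).2 ∈ L v'
      | .inr _ => ¬ k ∣ η (g (Sum.inl v)).2) at h1
    rw [h2] at h1
    exact h1
  · intro u v huv heq
    have h1 := (hσF (g (Sum.inl v)).2 (mem_univ _)).2.1 (g (Sum.inl u))
      (mem_filter.2 ⟨hgσ _, heq⟩) (g (Sum.inl v)) (hgF _)
    apply h1
    refine ⟨heq, ?_⟩
    rw [hg1, hg1]
    exact huv
  · -- counting
    have hσcard : σ.card = M := by
      have h1 : σ = univ.image g := by
        ext e
        rw [mem_image]
        constructor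
        · intro he
          exact ⟨e.1, mem_univ _, hσg e he⟩
        · rintro ⟨i, _, rfl⟩
          exact hgσ i
      have h2 : Function.Injective g := by
        intro i j hij
        rw [← hg1 i, ← hg1 j, hij]
      rw [h1, card_image_of_injective _ h2, card_univ, Fintype.card_sum, Fintype.card_fin, hN]
    have hle : ∀ c, (σ.filter (fun e => e.2 = c)).card ≤ t c := fun c =>
      (hσF c (mem_univ _)).2.2
    have hsum : ∑ c, (σ.filter (fun e => e.2 = c)).card = ∑ c, t c := by
      rw [← hM, ← hσcard]
      exact (card_eq_sum_card_fiberwise (fun e _ => mem_univ _)).symm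
    have heq : ∀ c, (σ.filter (fun e => e.2 = c)).card = t c := by
      intro c
      exact (sum_eq_sum_iff_of_le (fun c _ => hle c)).1 hsum c (mem_univ c)
    intro c
    -- split the class into vertices and dummies
    set P : Finset (V ⊕ Fin N) := (σ.filter (fun e => e.2 = c)).image Prod.fst with hP
    have hinj : Set.InjOn Prod.fst (σ.filter (fun e => e.2 = c) : Set ((V ⊕ Fin N) × C)) := by
      intro x hx y hy hxy
      have hx' := (mem_filter.1 (mem_coe.1 hx)).1
      have hy' := (mem_filter.1 (mem_coe.1 hy)).1
      rw [← hσg x hx', ← hσg y hy', hxy]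
    have hPcard : P.card = t c := by
      rw [hP, card_image_of_injOn hinj, heq]
    set fc : Finset V := univ.filter (fun v => (g (Sum.inl v)).2 = c) with hfc
    set dc : Finset (Fin N) := univ.filter (fun d => (g (Sum.inr d)).2 = c) with hdc
    have hmemP : ∀ i, i ∈ P ↔ (g i).2 = c := by
      intro i
      rw [hP, mem_image]
      constructor
      · rintro ⟨e, he, rfl⟩
        rw [mem_filter] at he
        rw [hσg e he.1]
        exact he.2
      · intro h
        exact ⟨g i, mem_filter.2 ⟨hgσ i, h⟩, hg1 i⟩
    have hPsplit : P.card = fc.card + dc.card := by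
      have h1 : P = fc.map ⟨Sum.inl, Sum.inl_injective⟩ ∪ dc.map ⟨Sum.inr, Sum.inr_injective⟩ := by
        ext x
        rw [hmemP]
        rcases x with v | d <;> simp [hfc, hdc]
      have h2 : Disjoint (fc.map ⟨Sum.inl, Sum.inl_injective⟩ : Finset (V ⊕ Fin N))
          (dc.map ⟨Sum.inr, Sum.inr_injective⟩) := by
        rw [disjoint_left]
        intro x hx hx'
        simp only [mem_map, Function.Embedding.coeFn_mk] at hx hx'
        obtain ⟨v, _, rfl⟩ := hx
        obtain ⟨d, _, h⟩ := hx'
        exact absurd h (by simp)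
      rw [h1, card_union_of_disjoint h2, card_map, card_map]
    have hok : ∀ d ∈ dc, ¬ k ∣ η c := by
      intro d hd
      rw [hdc, mem_filter] at hd
      have h1 := ((hσF (g (Sum.inr d)).2 (mem_univ _)).1 _ (hgF (Sum.inr d))).2
      change (match (g (Sum.inr d)).1 with
        | .inl v' => (g (Sum.inr d)).2 ∈ L v'
        | .inr _ => ¬ k ∣ η (g (Sum.inr d)).2) at h1
      rw [hg1, hd.2] at h1
      exact h1
    have hdc1 : dc.card ≤ 1 := by
      rw [card_le_one]
      intro d hd d' hd'
      by_contra hne
      rw [hdc, mem_filter] at hd hd'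
      have h1 := (hσF c (mem_univ _)).2.1 (g (Sum.inr d))
        (mem_filter.2 ⟨hgσ _, hd.2⟩) (g (Sum.inr d')) (mem_filter.2 ⟨hgσ _, hd'.2⟩)
      apply h1
      refine ⟨hd.2.trans hd'.2.symm, ?_⟩
      rw [hg1, hg1]
      exact hne
    have h3 := hkt c
    have h4 := hkt' c
    have h5 : t c ≤ η c / k + 1 := by
      have h6 : k * t c < k * (η c / k + 1 + 1) := by
        have h7 := Nat.div_add_mod (η c) k
        have h8 := Nat.mod_lt (η c) (show 0 < k by omega)
        have h9 : k * (η c / k + 1 + 1) = k * (η c / k) + k + k := by ring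
        omega
      have := Nat.lt_of_mul_lt_mul_left h6
      omega
    have h6 : η c / k ≤ t c := Nat.div_le_div_right (by omega)
    constructor
    · change η c / k ≤ fc.card
      by_cases hdiv : k ∣ η c
      · have h7 : dc = ∅ := by
          rw [eq_empty_iff_forall_notMem]
          intro d hd
          exact hok d hd hdiv
        rw [h7, card_empty] at hPsplit
        omega
      · have h7 : η c / k + 1 ≤ t c := by
          have h8 : k * (η c / k) < k * t c := by
            have h9 := Nat.div_add_mod (η c) k
            have h10 : 0 < η c % k := by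
              rw [Nat.pos_iff_ne_zero]
              exact fun h => hdiv (Nat.dvd_of_mod_eq_zero h)
            omega
          exact Nat.lt_of_mul_lt_mul_left h8
        omega
    · change fc.card ≤ t c
      omega

end Pool.Agent.H82.Top
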